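import Pool.Agent.K3h38.RHO.Geometry

/-!
Basic facts on the two versions of `ρ(k)`: the suprema are attained, and the indexed version is
at most the version for sets of sets.
-/

namespace K3h38.RHO
open Set

lemma exists_line : ∃ L, IsLine L := ⟨_, isLine_ln 0 0⟩

lemma zero_mem_ln : (0 : Plane) ∈ ln 0 0 := by simp [ln, ht]

lemma admissible_zero (k : ℕ) : Admissible k 0 := by
  intro F _ _
  obtain ⟨L, hL⟩ := exists_line
  exact ⟨∅, Finset.empty_subset F, by simp, L, hL, by simp⟩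

lemma admissible_le_one {k : ℕ} {ρ : ℝ} (h : Admissible k ρ) : ρ ≤ 1 := by
  obtain ⟨G, hG, hc, -⟩ := h {({0} : Set Plane)} (by
    intro K hK
    rw [Finset.mem_singleton] at hK
    subst hK
    exact ⟨isCompact_singleton, convex_singleton 0⟩) (by
    intro G hG _
    refine ⟨_, isLine_ln 0 0, fun K hK => ?_⟩
    have := Finset.mem_singleton.1 (hG hK)
    subst this
    exact ⟨0, rfl, zero_mem_ln⟩)
  have h1 : (G.card : ℝ) ≤ 1 := by
    have := Finset.card_le_card hG
    rw [Finset.card_singleton] at this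
    exact_mod_cast this
  rw [Finset.card_singleton] at hc
  simp only [Nat.cast_one, mul_one] at hc
  linarith

theorem rho_isGreatest (k : ℕ) : IsGreatest {ρ : ℝ | Admissible k ρ} (rho k) := by
  classical
  have hbdd : BddAbove {ρ : ℝ | Admissible k ρ} := ⟨1, fun ρ hρ => admissible_le_one hρ⟩
  refine ⟨?_, fun ρ hρ => le_csSup hbdd hρ⟩
  intro F hF hT
  obtain ⟨L0, hL0⟩ := exists_line
  obtain ⟨G, hG, hmax⟩ := (F.powerset.filter HasTransversal).exists_max_image Finset.card
    ⟨∅, Finset.mem_filter.2 ⟨Finset.empty_mem_powerset F, L0, hL0, by simp⟩⟩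
  rw [Finset.mem_filter, Finset.mem_powerset] at hG
  refine ⟨G, hG.1, ?_, hG.2⟩
  have hle : ∀ ρ, Admissible k ρ → ρ * (F.card : ℝ) ≤ (G.card : ℝ) := by
    intro ρ hρ
    obtain ⟨G', hG', hc, hT'⟩ := hρ F hF hT
    have h1 := hmax G' (Finset.mem_filter.2 ⟨Finset.mem_powerset.2 hG', hT'⟩)
    have h2 : (G'.card : ℝ) ≤ G.card := by exact_mod_cast h1
    linarith
  rcases Nat.eq_zero_or_pos F.card with h0 | h0
  · rw [h0]
    simp
  · have h0' : (0 : ℝ) < F.card := by exact_mod_cast h0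
    have : rho k ≤ (G.card : ℝ) / F.card := by
      refine csSup_le ⟨0, admissible_zero k⟩ ?_
      intro ρ hρ
      rw [le_div_iff₀ h0']
      exact hle ρ hρ
    rwa [le_div_iff₀ h0'] at this

lemma admissibleIdx_zero (k : ℕ) : AdmissibleIdx k 0 := by
  intro n K _ _
  obtain ⟨L, hL⟩ := exists_line
  exact ⟨∅, by simp, L, hL, by simp⟩

/-- An admissible value for indexed families is admissible for families of sets. -/
lemma AdmissibleIdx.admissible {k : ℕ} {ρ : ℝ} (h : AdmissibleIdx k ρ) : Admissible k ρ := by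
  classical
  intro F hF hT
  let e := F.equivFin
  obtain ⟨G, hGc, L, hL, hG⟩ := h F.card (fun i => (e.symm i : Set Plane))
    (fun i => hF _ (e.symm i).2) (by
      intro G hG
      obtain ⟨L, hL, hL'⟩ := hT (G.image (fun i => (e.symm i : Set Plane))) (by
        intro K hK
        obtain ⟨i, -, rfl⟩ := Finset.mem_image.1 hK
        exact (e.symm i).2) (Finset.card_image_le.trans hG)
      exact ⟨L, hL, fun i hi => hL' _ (Finset.mem_image_of_mem _ hi)⟩)
  refine ⟨G.image (fun i => (e.symm i : Set Plane)), ?_, ?_, L, hL, ?_⟩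
  · intro K hK
    obtain ⟨i, -, rfl⟩ := Finset.mem_image.1 hK
    exact (e.symm i).2
  · rw [Finset.card_image_of_injective]
    · exact hGc
    · intro i j hij
      exact e.symm.injective (Subtype.ext hij)
  · intro K hK
    obtain ⟨i, hi, rfl⟩ := Finset.mem_image.1 hK
    exact hG i hi

theorem rhoIdx_isGreatest (k : ℕ) : IsGreatest {ρ : ℝ | AdmissibleIdx k ρ} (rhoIdx k) := by
  classical
  have hbdd : BddAbove {ρ : ℝ | AdmissibleIdx k ρ} :=
    ⟨1, fun ρ hρ => admissible_le_one (AdmissibleIdx.admissible hρ)⟩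
  refine ⟨?_, fun ρ hρ => le_csSup hbdd hρ⟩
  intro n K hK hT
  obtain ⟨L0, hL0⟩ := exists_line
  obtain ⟨G, hG, hmax⟩ := ((Finset.univ : Finset (Finset (Fin n))).filter
    (fun G => ∃ L, IsLine L ∧ ∀ i ∈ G, (K i ∩ L).Nonempty)).exists_max_image Finset.card
    ⟨∅, Finset.mem_filter.2 ⟨Finset.mem_univ _, L0, hL0, by simp⟩⟩
  rw [Finset.mem_filter] at hG
  refine ⟨G, ?_, hG.2⟩
  have hle : ∀ ρ, AdmissibleIdx k ρ → ρ * (n : ℝ) ≤ (G.card : ℝ) := by
    intro ρ hρ
    obtain ⟨G', hc, hT'⟩ := hρ n K hK hT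
    have h1 := hmax G' (Finset.mem_filter.2 ⟨Finset.mem_univ _, hT'⟩)
    have h2 : (G'.card : ℝ) ≤ G.card := by exact_mod_cast h1
    linarith
  rcases Nat.eq_zero_or_pos n with h0 | h0
  · subst h0
    simp
  · have h0' : (0 : ℝ) < n := by exact_mod_cast h0
    have : rhoIdx k ≤ (G.card : ℝ) / n := by
      refine csSup_le ⟨0, admissibleIdx_zero k⟩ ?_
      intro ρ hρ
      rw [le_div_iff₀ h0']
      exact hle ρ hρ
    rwa [le_div_iff₀ h0'] at this

end K3h38.RHO
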