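import Pool.Agent.K3h38.RHO.Geometry

/-!
Canonical transversals: for a finite family of nonempty compact convex sets there are lines
`e i j`, indexed by pairs of members, such that every nonempty subfamily with a transversal is
met by `e i j` for two (possibly equal) members `i, j` of the subfamily.
-/

namespace K3h38.RHO
open Set Filter Topology

/-- The linear functional of the direction with angle `φ`. -/
noncomputable def fd (φ : ℝ) (x : Plane) : ℝ := Real.cos φ * x 0 + Real.sin φ * x 1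

lemma fd_continuous : Continuous (fun z : ℝ × Plane => fd z.1 z.2) := by
  unfold fd
  fun_prop

lemma fd_continuous_right (φ : ℝ) : Continuous (fd φ) := by
  unfold fd
  fun_prop

lemma fd_continuous_left (x : Plane) : Continuous (fun φ => fd φ x) := by
  unfold fd
  fun_prop

/-- The line of normal angle `φ` and offset `c`. -/
def dl (φ c : ℝ) : Set Plane := {x | fd φ x = c}

lemma isLine_dl (φ c : ℝ) : IsLine (dl φ c) := by
  refine ⟨pt (Real.cos φ) (Real.sin φ), c, ?_, ?_⟩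
  · intro h
    have h0 := congrArg (fun p : Plane => p 0) h
    have h1 := congrArg (fun p : Plane => p 1) h
    simp only [pt_zero, pt_one, PiLp.zero_apply] at h0 h1
    have := Real.cos_sq_add_sin_sq φ
    rw [h0, h1] at this
    norm_num at this
  · ext x
    simp only [dl, mem_setOf_eq, inner_coord, pt_zero, pt_one, fd]

/-- Every line has a normal angle in `[0, π]`. -/
lemma exists_angle {L : Set Plane} (hL : IsLine L) :
    ∃ φ ∈ Icc (0 : ℝ) Real.pi, ∃ c, L = dl φ c := by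
  obtain ⟨v, c, hv, rfl⟩ := hL
  have hpos : 0 < v 0 ^ 2 + v 1 ^ 2 := by
    by_contra h
    push Not at h
    apply hv
    have h0 : v 0 = 0 := by nlinarith [sq_nonneg (v 0), sq_nonneg (v 1)]
    have h1 : v 1 = 0 := by nlinarith [sq_nonneg (v 0), sq_nonneg (v 1)]
    ext i
    fin_cases i
    · simpa using h0
    · simpa using h1
  obtain ⟨r, hr, hr2⟩ : ∃ r : ℝ, 0 < r ∧ r ^ 2 = v 0 ^ 2 + v 1 ^ 2 :=
    ⟨Real.sqrt (v 0 ^ 2 + v 1 ^ 2), Real.sqrt_pos.2 hpos, Real.sq_sqrt hpos.le⟩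
  -- choose the sign such that the second coordinate is nonnegative
  obtain ⟨ε, hε, hε1⟩ : ∃ ε : ℝ, ε ^ 2 = 1 ∧ 0 ≤ ε * v 1 := by
    by_cases h : 0 ≤ v 1
    · exact ⟨1, by norm_num, by linarith⟩
    · exact ⟨-1, by norm_num, by linarith⟩
  have hε0 : ε ≠ 0 := by
    rintro rfl
    norm_num at hε
  obtain ⟨w, hw⟩ : ∃ w : ℝ, w = ε * v 0 / r := ⟨_, rfl⟩
  have hw2 : w ^ 2 + (ε * v 1 / r) ^ 2 = 1 := by
    rw [hw, div_pow, div_pow, ← add_div, div_eq_one_iff_eq (by positivity), hr2]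
    have : (ε * v 0) ^ 2 + (ε * v 1) ^ 2 = ε ^ 2 * (v 0 ^ 2 + v 1 ^ 2) := by ring
    rw [this, hε, one_mul]
  have hw1 : -1 ≤ w := by nlinarith [sq_nonneg (ε * v 1 / r)]
  have hw1' : w ≤ 1 := by nlinarith [sq_nonneg (ε * v 1 / r)]
  refine ⟨Real.arccos w, ⟨Real.arccos_nonneg w, Real.arccos_le_pi w⟩, ε * c / r, ?_⟩
  have hcos : Real.cos (Real.arccos w) = ε * v 0 / r := by
    rw [Real.cos_arccos hw1 hw1', hw]
  have hsin : Real.sin (Real.arccos w) = ε * v 1 / r := by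
    rw [Real.sin_arccos]
    have : 1 - w ^ 2 = (ε * v 1 / r) ^ 2 := by linarith
    rw [this, Real.sqrt_sq (by positivity)]
  ext x
  simp only [dl, mem_setOf_eq, inner_coord, fd, hcos, hsin]
  have e1 : ε * v 0 / r * x 0 + ε * v 1 / r * x 1 = ε * (v 0 * x 0 + v 1 * x 1) / r := by
    field_simp
  rw [e1, div_left_inj' hr.ne', mul_right_inj' hε0]

variable {ι : Type*} (K : ι → Set Plane)

/-- Angles in `[0, π]` in whose direction `K i` lies strictly above `K j`. -/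
def US (i j : ι) : Set ℝ := {φ | φ ∈ Icc (0 : ℝ) Real.pi ∧ ∀ x ∈ K i, ∀ y ∈ K j, fd φ y < fd φ x}

lemma US_ordConnected {i j : ι} (hi : (K i).Nonempty) (hj : (K j).Nonempty) {a b c : ℝ}
    (ha : a ∈ US K i j) (hc : c ∈ US K i j) (hab : a < b) (hbc : b < c) : b ∈ US K i j := by
  obtain ⟨⟨ha0, haπ⟩, ha2⟩ := ha
  obtain ⟨⟨hc0, hcπ⟩, hc2⟩ := hc
  have hlt : c - a < Real.pi := by
    by_contra h
    push Not at h
    have h1 : a = 0 := by linarith
    have h2 : c = Real.pi := by linarith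
    obtain ⟨x, hx⟩ := hi
    obtain ⟨y, hy⟩ := hj
    have e1 := ha2 x hx y hy
    have e2 := hc2 x hx y hy
    rw [h1] at e1
    rw [h2] at e2
    simp only [fd, Real.cos_zero, Real.sin_zero, Real.cos_pi, Real.sin_pi] at e1 e2
    linarith
  refine ⟨⟨by linarith, by linarith⟩, ?_⟩
  intro x hx y hy
  have e1 := ha2 x hx y hy
  have e2 := hc2 x hx y hy
  have s1 : 0 < Real.sin (c - a) := Real.sin_pos_of_pos_of_lt_pi (by linarith) hlt
  have s2 : 0 < Real.sin (c - b) := Real.sin_pos_of_pos_of_lt_pi (by linarith) (by linarith)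
  have s3 : 0 < Real.sin (b - a) := Real.sin_pos_of_pos_of_lt_pi (by linarith) (by linarith)
  have key : (fd b x - fd b y) * Real.sin (c - a) =
      (fd a x - fd a y) * Real.sin (c - b) + (fd c x - fd c y) * Real.sin (b - a) := by
    simp only [fd, Real.sin_sub]
    have hb := Real.cos_sq_add_sin_sq b
    have hb' : Real.cos b ^ 2 = 1 - Real.sin b ^ 2 := by linarith
    ring_nf
  have h3 : 0 < (fd b x - fd b y) * Real.sin (c - a) := by
    rw [key]
    have := mul_pos (sub_pos.2 e1) s2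
    have := mul_pos (sub_pos.2 e2) s3
    linarith
  have h4 := (pos_iff_pos_of_mul_pos h3).2 s1
  linarith

/-- The least value of `fd φ` on `K i`. -/
noncomputable def lo (i : ι) (φ : ℝ) : ℝ := sInf (fd φ '' K i)

lemma lo_isLeast {i : ι} (hi : (K i).Nonempty) (hc : IsCompact (K i)) (φ : ℝ) :
    IsLeast (fd φ '' K i) (lo K i φ) :=
  (hc.image (fd_continuous_right φ)).isLeast_sInf (hi.image _)

open Classical in
/-- The canonical line of an ordered pair. -/
noncomputable def cl (i j : ι) : Set Plane :=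
  if i = j then dl 0 (lo K i 0) else dl (sSup (US K i j)) (lo K i (sSup (US K i j)))

lemma isLine_cl (i j : ι) : IsLine (cl K i j) := by
  unfold cl
  split_ifs
  · exact isLine_dl _ _
  · exact isLine_dl _ _

/-- One-dimensional Helly: the largest lower end is a common value. -/
lemma helly_one (hne : ∀ i, (K i).Nonempty) (hc : ∀ i, IsCompact (K i))
    (hconv : ∀ i, Convex ℝ (K i)) {g : Finset ι} (hg : g.Nonempty) {φ : ℝ}
    (h : ∀ i ∈ g, ∀ j ∈ g, ∃ x ∈ K i, ∃ y ∈ K j, fd φ x ≤ fd φ y) :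
    ∃ i ∈ g, ∀ j ∈ g, (K j ∩ dl φ (lo K i φ)).Nonempty := by
  obtain ⟨i, hi, hmax⟩ := g.exists_max_image (fun i => lo K i φ) hg
  refine ⟨i, hi, fun j hj => ?_⟩
  obtain ⟨x, hx, y, hy, hxy⟩ := h i hi j hj
  obtain ⟨z, hz, hz'⟩ := (lo_isLeast K (hne j) (hc j) φ).1
  have h1 : fd φ z ≤ lo K i φ := by rw [hz']; exact hmax j hj
  have h2 : lo K i φ ≤ fd φ y :=
    ((lo_isLeast K (hne i) (hc i) φ).2 ⟨x, hx, rfl⟩).trans hxy
  obtain ⟨w, hw, hw'⟩ := (hconv j).isPreconnected.intermediate_value hz hy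
    (fd_continuous_right φ).continuousOn ⟨h1, h2⟩
  exact ⟨w, hw, hw'⟩

/-- Feasible angles of a subfamily. -/
def feas (g : Finset ι) : Set ℝ :=
  {φ | φ ∈ Icc (0 : ℝ) Real.pi ∧ ∃ c, ∀ i ∈ g, (K i ∩ dl φ c).Nonempty}

lemma feas_compact [Finite ι] (hne : ∀ i, (K i).Nonempty) (hc : ∀ i, IsCompact (K i))
    {g : Finset ι} (hg : g.Nonempty) : IsCompact (feas K g) := by
  have hset : feas K g = Prod.fst '' ((Icc (0 : ℝ) Real.pi ×ˢ Set.pi univ K) ∩
      {z : ℝ × (ι → Plane) | ∀ i ∈ g, ∀ j ∈ g, fd z.1 (z.2 i) = fd z.1 (z.2 j)}) := by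
    ext φ
    constructor
    · rintro ⟨hφ, c, h⟩
      have : ∀ i, ∃ x ∈ K i, i ∈ g → fd φ x = c := by
        intro i
        by_cases hi : i ∈ g
        · obtain ⟨x, hx, hx'⟩ := h i hi
          exact ⟨x, hx, fun _ => hx'⟩
        · obtain ⟨x, hx⟩ := hne i
          exact ⟨x, hx, fun h' => absurd h' hi⟩
      choose x hx hx' using this
      refine ⟨(φ, x), ⟨⟨hφ, fun i _ => hx i⟩, ?_⟩, rfl⟩
      intro i hi j hj
      change fd φ (x i) = fd φ (x j)
      rw [hx' i hi, hx' j hj]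
    · rintro ⟨⟨φ', x⟩, ⟨⟨hφ, hx⟩, heq⟩, rfl⟩
      obtain ⟨i0, hi0⟩ := hg
      refine ⟨hφ, fd φ' (x i0), fun i hi => ⟨x i, hx i (mem_univ i), heq i hi i0 hi0⟩⟩
  rw [hset]
  refine IsCompact.image ?_ continuous_fst
  refine IsCompact.inter_right (isCompact_Icc.prod (isCompact_univ_pi hc)) ?_
  have : {z : ℝ × (ι → Plane) | ∀ i ∈ g, ∀ j ∈ g, fd z.1 (z.2 i) = fd z.1 (z.2 j)} =
      ⋂ i ∈ g, ⋂ j ∈ g, {z : ℝ × (ι → Plane) | fd z.1 (z.2 i) = fd z.1 (z.2 j)} := by
    ext z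
    simp
  rw [this]
  have hcont : ∀ i : ι, Continuous (fun z : ℝ × (ι → Plane) => fd z.1 (z.2 i)) := by
    intro i
    unfold fd
    fun_prop
  exact isClosed_biInter fun i _ => isClosed_biInter fun j _ =>
    isClosed_eq (hcont i) (hcont j)

/-- Every subfamily with a transversal has a canonical one. -/
theorem exists_canonical [Finite ι] (hne : ∀ i, (K i).Nonempty) (hc : ∀ i, IsCompact (K i))
    (hconv : ∀ i, Convex ℝ (K i)) {g : Finset ι} (hg : g.Nonempty)
    (hT : ∃ L, IsLine L ∧ ∀ i ∈ g, (K i ∩ L).Nonempty) :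
    ∃ i ∈ g, ∃ j ∈ g, ∀ z ∈ g, (K z ∩ cl K i j).Nonempty := by
  classical
  obtain ⟨L, hL, hLg⟩ := hT
  obtain ⟨φ1, hφ1, c1, rfl⟩ := exists_angle hL
  obtain ⟨φ0, hφ0, hmin⟩ := (feas_compact K hne hc hg).exists_isLeast ⟨φ1, hφ1, c1, hLg⟩
  obtain ⟨⟨h0, hπ⟩, c0, hc0⟩ := hφ0
  rcases h0.eq_or_lt with h | h
  · -- the direction `0` is feasible
    subst h
    obtain ⟨i, hi, hi'⟩ := helly_one K hne hc hconv hg (φ := 0) (by
      intro i hi j hj
      obtain ⟨x, hx, hx'⟩ := hc0 i hi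
      obtain ⟨y, hy, hy'⟩ := hc0 j hj
      refine ⟨x, hx, y, hy, ?_⟩
      simp only [dl, mem_setOf_eq] at hx' hy'
      rw [hx', hy'])
    refine ⟨i, hi, i, hi, fun z hz => ?_⟩
    rw [cl, if_pos rfl]
    exact hi' z hz
  · -- some pair becomes feasible exactly at `φ0`
    have hev : ∃ i ∈ g, ∃ j ∈ g, ∃ᶠ φ in 𝓝[<] φ0, φ ∈ US K i j := by
      by_contra hcon
      push Not at hcon
      have h1 : ∀ᶠ φ in 𝓝[<] φ0, ∀ i ∈ g, ∀ j ∈ g, φ ∉ US K i j := by
        rw [Finset.eventually_all]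
        intro i hi
        rw [Finset.eventually_all]
        intro j hj
        exact hcon i hi j hj
      have h2 : ∀ᶠ φ in 𝓝[<] φ0, φ ∈ Ioo 0 φ0 := Ioo_mem_nhdsLT h
      obtain ⟨φ, hφ, hφ2⟩ := (h1.and h2).exists
      have hφI : φ ∈ Icc (0 : ℝ) Real.pi := ⟨hφ2.1.le, hφ2.2.le.trans hπ⟩
      obtain ⟨i, hi, hi'⟩ := helly_one K hne hc hconv hg (φ := φ) (by
        intro i hi j hj
        by_contra hno
        push Not at hno
        exact hφ i hi j hj ⟨hφI, hno⟩)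
      have : φ0 ≤ φ := hmin ⟨hφI, _, hi'⟩
      exact absurd hφ2.2 (not_lt.2 this)
    obtain ⟨i, hi, j, hj, hfr⟩ := hev
    obtain ⟨x', hx', hx''⟩ := hc0 i hi
    obtain ⟨y', hy', hy''⟩ := hc0 j hj
    simp only [dl, mem_setOf_eq] at hx'' hy''
    have hnot : φ0 ∉ US K i j := by
      rintro ⟨-, h2⟩
      have := h2 x' hx' y' hy'
      rw [hx'', hy''] at this
      exact lt_irrefl _ this
    have hfr2 : ∀ a < φ0, ∃ u ∈ US K i j, a < u ∧ u < φ0 := by
      intro a ha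
      have h2 : ∀ᶠ φ in 𝓝[<] φ0, φ ∈ Ioo a φ0 := Ioo_mem_nhdsLT ha
      obtain ⟨u, hu, hu2⟩ := (hfr.and_eventually h2).exists
      exact ⟨u, hu, hu2.1, hu2.2⟩
    have hsup : sSup (US K i j) = φ0 := by
      refine csSup_eq_of_forall_le_of_forall_lt_exists_gt ?_ ?_ ?_
      · obtain ⟨u, hu, -⟩ := hfr2 0 h
        exact ⟨u, hu⟩
      · intro u hu
        by_contra hlt
        push Not at hlt
        obtain ⟨u', hu', -, hu''⟩ := hfr2 0 h
        exact hnot (US_ordConnected K (hne i) (hne j) hu' hu hu'' hlt)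
      · intro w hw
        obtain ⟨u, hu, hu2, -⟩ := hfr2 w hw
        exact ⟨u, hu, hu2⟩
    have hlim : ∀ x ∈ K i, ∀ y ∈ K j, fd φ0 y ≤ fd φ0 x := by
      intro x hx y hy
      by_contra hlt
      push Not at hlt
      have h2 : ∀ᶠ φ in 𝓝 φ0, fd φ x < fd φ y :=
        (fd_continuous_left x).continuousAt.eventually_lt (fd_continuous_left y).continuousAt hlt
      have h3 : ∀ᶠ φ in 𝓝[<] φ0, fd φ x < fd φ y := h2.filter_mono nhdsWithin_le_nhds
      obtain ⟨u, hu, hu2⟩ := (hfr.and_eventually h3).exists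
      have := hu.2 x hx y hy
      exact lt_asymm this hu2
    have hlo : lo K i φ0 = c0 := by
      refine IsLeast.csInf_eq ⟨⟨x', hx', hx''⟩, ?_⟩
      rintro _ ⟨x, hx, rfl⟩
      have := hlim x hx y' hy'
      rwa [hy''] at this
    have hij : i ≠ j := by
      rintro rfl
      obtain ⟨u, hu, -⟩ := hfr2 0 h
      exact lt_irrefl _ (hu.2 x' hx' x' hx')
    refine ⟨i, hi, j, hj, fun z hz => ?_⟩
    rw [cl, if_neg hij, hsup, hlo]
    exact hc0 z hz

end K3h38.RHO
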