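import Pool.Agent.K3h38.RHO.Geometry

/-!
The construction: from `M` partitions (into `m` fibres with at least `s` elements) of an
`N`-element set such that every `k`-element set misses a fibre of one of the partitions, we build
a `T(k)`-family of at most `s (2M+3) + N` compact convex sets such that every line misses at
least `s` members.
-/

namespace K3h38.RHO
open Set

/-- The large constant. -/
noncomputable def big (M T : ℕ) : ℝ := 2 * ((M : ℝ) * T) ^ 2 + T

/-- Segments of the first type. -/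
noncomputable def XS (M T a l : ℕ) : Set Plane :=
  convexHull ℝ {pt (-((2 * a + 1) * T)) (-(a * (a + 1) * T ^ 2)),
    pt (-((2 * a + 1) * T)) (big M T + l)}

/-- Top vertices of the polygons of the second type, first half. -/
noncomputable def vp (T : ℕ) (r : ℕ → ℕ) (a : ℕ) : Plane :=
  pt (-((2 * a + 1) * T + 1 / 4)) (-(a * (a + 1) * T ^ 2) - (r a) / 4 - 3 / 16)

/-- Top vertices of the polygons of the second type, second half. -/
noncomputable def vm (T : ℕ) (r : ℕ → ℕ) (a : ℕ) : Plane :=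
  pt (-((2 * a + 1) * T - 1 / 4)) (-(a * (a + 1) * T ^ 2) + (r a) / 4 - 3 / 16)

/-- Vertices of the polygons of the second type. -/
noncomputable def YV (M T : ℕ) (r : ℕ → ℕ) (h : ℕ) : Set Plane :=
  (vp T r '' Set.Iio M ∪ vm T r '' Set.Iio M) ∪ {pt 0 (-(big M T + h))}

/-- Polygons of the second type. -/
noncomputable def YS (M T : ℕ) (r : ℕ → ℕ) (h : ℕ) : Set Plane := convexHull ℝ (YV M T r h)

/-- Segments bounding the slope, left. -/
noncomputable def WL (M T s l : ℕ) : Set Plane :=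
  convexHull ℝ {pt (-big M T) (-((M * T + 1) * big M T) + big M T * (l / s)), pt (-big M T) 0}

/-- Segments bounding the slope, right. -/
noncomputable def WR (M T s l : ℕ) : Set Plane :=
  convexHull ℝ {pt (big M T) (-big M T + big M T * (l / s)), pt (big M T) (M * T * big M T)}

lemma big_pos {M T : ℕ} (hT : 1 ≤ T) : 0 < big M T := by
  have : (1 : ℝ) ≤ T := by exact_mod_cast hT
  unfold big
  positivity

lemma YV_finite (M T : ℕ) (r : ℕ → ℕ) (h : ℕ) : (YV M T r h).Finite :=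
  (((Set.finite_Iio M).image _).union ((Set.finite_Iio M).image _)).union (Set.finite_singleton _)

lemma compact_hull {S : Set Plane} (hS : S.Finite) :
    IsCompact (convexHull ℝ S) ∧ Convex ℝ (convexHull ℝ S) :=
  ⟨hS.isCompact_convexHull ℝ, convex_convexHull ℝ S⟩

lemma XS_cc (M T a l : ℕ) : IsCompact (XS M T a l) ∧ Convex ℝ (XS M T a l) :=
  compact_hull (by simp)

lemma YS_cc (M T : ℕ) (r : ℕ → ℕ) (h : ℕ) : IsCompact (YS M T r h) ∧ Convex ℝ (YS M T r h) :=
  compact_hull (YV_finite M T r h)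

lemma WL_cc (M T s l : ℕ) : IsCompact (WL M T s l) ∧ Convex ℝ (WL M T s l) :=
  compact_hull (by simp)

lemma WR_cc (M T s l : ℕ) : IsCompact (WR M T s l) ∧ Convex ℝ (WR M T s l) :=
  compact_hull (by simp)

/-! ### Distinctness -/

lemma XS_label {M T : ℕ} (hT : 1 ≤ T) (a l : ℕ) :
    IsGreatest ((fun q : Plane => q 1) '' XS M T a l) (big M T + l) := by
  have h := label_top (S := {pt (-((2 * a + 1) * T)) (-(a * (a + 1) * T ^ 2)),
    pt (-((2 * a + 1) * T)) (big M T + l)}) (p := pt (-((2 * a + 1) * T)) (big M T + l))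
    (by simp) (by
      have := big_pos (M := M) hT
      have h2 : (0 : ℝ) ≤ a * (a + 1) * T ^ 2 := by positivity
      intro q hq
      rcases hq with rfl | rfl
      · simp only [pt_one]
        have : (0 : ℝ) ≤ l := Nat.cast_nonneg l
        linarith
      · exact le_rfl)
  rw [pt_one] at h
  exact h

lemma XS_inj {M T : ℕ} (hT : 1 ≤ T) (a : ℕ) : Function.Injective (XS M T a) := by
  intro l l' h
  have h1 := XS_label (M := M) hT a l
  rw [h] at h1
  have h2 := h1.unique (XS_label (M := M) hT a l')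
  have h3 : (l : ℝ) = l' := by linarith
  exact_mod_cast h3

/-- Bounds used several times. -/
lemma bounds {M T a ra : ℕ} (hT : 1 ≤ T) (ha : a < M) (hr : ra ≤ (a + 1) * T) :
    (a : ℝ) * (a + 1) * T ^ 2 ≤ (M * T) ^ 2 ∧ (ra : ℝ) ≤ (M * T) ^ 2 := by
  have hT' : (1 : ℝ) ≤ T := by exact_mod_cast hT
  have h1 : (a : ℝ) + 1 ≤ M := by exact_mod_cast ha
  have h2 : (ra : ℝ) ≤ (a + 1) * T := by exact_mod_cast hr
  have h3 : (0 : ℝ) ≤ a := Nat.cast_nonneg a
  constructor
  · have : (a : ℝ) * (a + 1) ≤ M * M := by nlinarith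
    nlinarith [sq_nonneg (T : ℝ)]
  · have h7 : (1 : ℝ) ≤ M := by linarith
    have h8 : (ra : ℝ) ≤ M * T := by nlinarith
    have h9 : (1 : ℝ) ≤ M * T := by nlinarith
    nlinarith

lemma YV_bot {M T : ℕ} (hT : 1 ≤ T) {r : ℕ → ℕ}
    (hr : ∀ a < M, a * T ≤ r a ∧ r a ≤ (a + 1) * T) (h : ℕ) :
    ∀ q ∈ YV M T r h, -(big M T + h) ≤ q 1 := by
  intro q hq
  have h4 : (0 : ℝ) ≤ h := Nat.cast_nonneg h
  have hT' : (1 : ℝ) ≤ T := by exact_mod_cast hT
  rcases hq with (⟨a, ha, rfl⟩ | ⟨a, ha, rfl⟩) | rfl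
  · simp only [vp, pt_one, big]
    have ha' : a < M := ha
    obtain ⟨h5, h6⟩ := bounds hT ha' (hr a ha').2
    nlinarith
  · simp only [vm, pt_one, big]
    have ha' : a < M := ha
    obtain ⟨h5, h6⟩ := bounds hT ha' (hr a ha').2
    have h7 : (0 : ℝ) ≤ r a := Nat.cast_nonneg _
    nlinarith
  · simp

lemma YS_label {M T : ℕ} (hT : 1 ≤ T) {r : ℕ → ℕ}
    (hr : ∀ a < M, a * T ≤ r a ∧ r a ≤ (a + 1) * T) (h : ℕ) :
    IsLeast ((fun q : Plane => q 1) '' YS M T r h) (-(big M T + h)) := by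
  have h1 := label_bot (S := YV M T r h) (p := pt 0 (-(big M T + h))) (Or.inr rfl) (by
    intro q hq
    rw [pt_one]
    exact YV_bot hT hr h q hq)
  rw [pt_one] at h1
  exact h1

lemma YS_inj {M T : ℕ} (hT : 1 ≤ T) {r r' : ℕ → ℕ}
    (hr : ∀ a < M, a * T ≤ r a ∧ r a ≤ (a + 1) * T)
    (hr' : ∀ a < M, a * T ≤ r' a ∧ r' a ≤ (a + 1) * T) {h h' : ℕ}
    (he : YS M T r h = YS M T r' h') : h = h' := by
  have h1 := YS_label hT hr h
  rw [he] at h1
  have h2 := h1.unique (YS_label hT hr' h')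
  have h3 : (h : ℝ) = h' := by linarith
  exact_mod_cast h3

lemma frac_le {s l : ℕ} (hl : l < s) : (0 : ℝ) ≤ (l : ℝ) / s ∧ (l : ℝ) / s ≤ 1 := by
  refine ⟨by positivity, ?_⟩
  have : (l : ℝ) ≤ s := by exact_mod_cast hl.le
  exact div_le_one_of_le₀ this (Nat.cast_nonneg s)

lemma WL_sub {M T s l : ℕ} (hT : 1 ≤ T) (hl : l < s) {p : Plane} (hp : p ∈ WL M T s l) :
    p 0 = -big M T ∧ -((M * T + 1) * big M T) ≤ p 1 ∧ p 1 ≤ 0 := by
  have hb := big_pos (M := M) hT
  obtain ⟨h1, h2⟩ := frac_le hl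
  have hMT : (0 : ℝ) ≤ M * T := by positivity
  have : WL M T s l ⊆ {q : Plane | q 0 ≤ -big M T} ∩ {q : Plane | -big M T ≤ q 0} ∩
      ({q : Plane | -((M * T + 1) * big M T) ≤ q 1} ∩ {q : Plane | q 1 ≤ 0}) := by
    apply convexHull_min
    · rintro q (rfl | rfl)
      · refine ⟨⟨?_, ?_⟩, ?_, ?_⟩ <;> simp only [mem_setOf_eq, pt_zero, pt_one]
        · exact le_rfl
        · exact le_rfl
        · nlinarith
        · nlinarith
      · refine ⟨⟨?_, ?_⟩, ?_, ?_⟩ <;> simp only [mem_setOf_eq, pt_zero, pt_one]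
        · exact le_rfl
        · exact le_rfl
        · nlinarith
        · exact le_rfl
    · exact ((convex_halfSpace_le (coord_linear 0) _).inter
        (convex_halfSpace_ge (coord_linear 0) _)).inter
        ((convex_halfSpace_ge (coord_linear 1) _).inter (convex_halfSpace_le (coord_linear 1) _))
  obtain ⟨⟨h3, h4⟩, h5, h6⟩ := this hp
  exact ⟨le_antisymm h3 h4, h5, h6⟩

lemma WR_sub {M T s l : ℕ} (hT : 1 ≤ T) (hl : l < s) {p : Plane} (hp : p ∈ WR M T s l) :
    p 0 = big M T ∧ -big M T ≤ p 1 ∧ p 1 ≤ M * T * big M T := by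
  have hb := big_pos (M := M) hT
  obtain ⟨h1, h2⟩ := frac_le hl
  have hMT : (0 : ℝ) ≤ M * T := by positivity
  have : WR M T s l ⊆ {q : Plane | q 0 ≤ big M T} ∩ {q : Plane | big M T ≤ q 0} ∩
      ({q : Plane | -big M T ≤ q 1} ∩ {q : Plane | q 1 ≤ M * T * big M T}) := by
    apply convexHull_min
    · rintro q (rfl | rfl)
      · refine ⟨⟨?_, ?_⟩, ?_, ?_⟩ <;> simp only [mem_setOf_eq, pt_zero, pt_one]
        · exact le_rfl
        · exact le_rfl
        · nlinarith
        · nlinarith [mul_nonneg hMT hb.le]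
      · refine ⟨⟨?_, ?_⟩, ?_, ?_⟩ <;> simp only [mem_setOf_eq, pt_zero, pt_one]
        · exact le_rfl
        · exact le_rfl
        · nlinarith [mul_nonneg hMT hb.le]
        · exact le_rfl
    · exact ((convex_halfSpace_le (coord_linear 0) _).inter
        (convex_halfSpace_ge (coord_linear 0) _)).inter
        ((convex_halfSpace_ge (coord_linear 1) _).inter (convex_halfSpace_le (coord_linear 1) _))
  obtain ⟨⟨h3, h4⟩, h5, h6⟩ := this hp
  exact ⟨le_antisymm h3 h4, h5, h6⟩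

lemma WL_inj {M T s l l' : ℕ} (hT : 1 ≤ T) (hl : l < s) (hl' : l' < s)
    (h : WL M T s l = WL M T s l') : l = l' := by
  have hb := big_pos (M := M) hT
  have hMT : (0 : ℝ) ≤ M * T := by positivity
  have key : ∀ l, l < s → IsLeast ((fun q : Plane => q 1) '' WL M T s l)
      (-((M * T + 1) * big M T) + big M T * (l / s)) := by
    intro l hl
    obtain ⟨h1, h2⟩ := frac_le hl
    have h3 := label_bot
      (S := {pt (-big M T) (-((M * T + 1) * big M T) + big M T * (l / s)), pt (-big M T) 0})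
      (p := pt (-big M T) (-((M * T + 1) * big M T) + big M T * (l / s))) (by simp) (by
        rintro q (rfl | rfl)
        · exact le_rfl
        · simp only [pt_one]
          nlinarith)
    rw [pt_one] at h3
    exact h3
  have h1 := key l hl
  rw [h] at h1
  have h2 := h1.unique (key l' hl')
  have hs : (0 : ℝ) < s := by exact_mod_cast (by omega : 0 < s)
  have h3 : (l : ℝ) / s = l' / s := by
    have : big M T * ((l : ℝ) / s) = big M T * (l' / s) := by linarith
    exact mul_left_cancel₀ hb.ne' this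
  rw [div_left_inj' hs.ne'] at h3
  exact_mod_cast h3

lemma WR_inj {M T s l l' : ℕ} (hT : 1 ≤ T) (hl : l < s) (hl' : l' < s)
    (h : WR M T s l = WR M T s l') : l = l' := by
  have hb := big_pos (M := M) hT
  have hMT : (0 : ℝ) ≤ M * T := by positivity
  have key : ∀ l, l < s → IsLeast ((fun q : Plane => q 1) '' WR M T s l)
      (-big M T + big M T * (l / s)) := by
    intro l hl
    obtain ⟨h1, h2⟩ := frac_le hl
    have h3 := label_bot
      (S := {pt (big M T) (-big M T + big M T * (l / s)), pt (big M T) (M * T * big M T)})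
      (p := pt (big M T) (-big M T + big M T * (l / s))) (by simp) (by
        rintro q (rfl | rfl)
        · exact le_rfl
        · simp only [pt_one]
          nlinarith [mul_nonneg hMT hb.le])
    rw [pt_one] at h3
    exact h3
  have h1 := key l hl
  rw [h] at h1
  have h2 := h1.unique (key l' hl')
  have hs : (0 : ℝ) < s := by exact_mod_cast (by omega : 0 < s)
  have h3 : (l : ℝ) / s = l' / s := by
    have : big M T * ((l : ℝ) / s) = big M T * (l' / s) := by linarith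
    exact mul_left_cancel₀ hb.ne' this
  rw [div_left_inj' hs.ne'] at h3
  exact_mod_cast h3

/-! ### Missing -/

/-- A line hitting a left and a right segment is non-vertical, with slope in the range. -/
lemma slope_range {M T s l l' : ℕ} (hT : 1 ≤ T) (hl : l < s) (hl' : l' < s) {θ τ : ℝ}
    (h1 : (WL M T s l ∩ ln θ τ).Nonempty) (h2 : (WR M T s l' ∩ ln θ τ).Nonempty) :
    -(1 / 2) ≤ θ ∧ θ ≤ ((M * T : ℕ) : ℝ) + 1 / 2 := by
  obtain ⟨p, hp, hp'⟩ := h1
  obtain ⟨q, hq, hq'⟩ := h2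
  obtain ⟨a1, a2, a3⟩ := WL_sub hT hl hp
  obtain ⟨b1, b2, b3⟩ := WR_sub hT hl' hq
  simp only [ln, mem_setOf_eq, ht] at hp' hq'
  rw [a1] at hp'
  rw [b1] at hq'
  have hb := big_pos (M := M) hT
  push_cast
  constructor
  · by_contra h
    push Not at h
    nlinarith
  · by_contra h
    push Not at h
    nlinarith

lemma XS_miss {M T a : ℕ} (hT : 1 ≤ T) (l : ℕ) {θ τ : ℝ} (h : τ < pl T a θ) :
    ¬ (XS M T a l ∩ ln θ τ).Nonempty := by
  apply miss_above
  have hb := big_pos (M := M) hT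
  have h2 : (0 : ℝ) ≤ a * (a + 1) * T ^ 2 := by positivity
  have h3 : (0 : ℝ) ≤ l := Nat.cast_nonneg l
  rintro p (rfl | rfl)
  · rw [ht_pt]
    unfold pl at h
    linarith
  · rw [ht_pt]
    unfold pl at h
    linarith

lemma YS_miss {M T : ℕ} (hM : 1 ≤ M) (hT : 1 ≤ T) {r : ℕ → ℕ}
    (hr : ∀ a < M, a * T ≤ r a ∧ r a ≤ (a + 1) * T) {c : ℕ} (hcM : c ≤ M * T)
    (hc : ∀ a < M, a * T ≤ c → c ≤ (a + 1) * T → r a = c) {θ : ℝ} (hθ : |θ - c| ≤ 1 / 2)
    {τ : ℝ} (hτ : ∀ a < M, pl T a θ ≤ τ) (h : ℕ) : ¬ (YS M T r h ∩ ln θ τ).Nonempty := by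
  apply miss_below
  have hT' : (1 : ℝ) ≤ T := by exact_mod_cast hT
  rintro p ((⟨a, ha, rfl⟩ | ⟨a, ha, rfl⟩) | rfl)
  · obtain ⟨a', ha', h1⟩ := dip hT hr hcM hc hθ (a' := a) ha
    have h2 := hτ a' ha'
    have h3 := le_abs_self (θ - r a)
    rw [vp, ht_pt]
    unfold pl at h1 h2
    nlinarith
  · obtain ⟨a', ha', h1⟩ := dip hT hr hcM hc hθ (a' := a) ha
    have h2 := hτ a' ha'
    have h3 := neg_abs_le (θ - r a)
    rw [vm, ht_pt]
    unfold pl at h1 h2
    nlinarith
  · rw [ht_pt]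
    have h1 := hτ 0 (by omega)
    have h4 : (0 : ℝ) ≤ h := Nat.cast_nonneg h
    have h5 : (0 : ℝ) ≤ c := Nat.cast_nonneg c
    obtain ⟨h6, h7⟩ := abs_le.1 hθ
    unfold pl at h1
    unfold big
    have h8 : (0 : ℝ) ≤ (M * T) ^ 2 := by positivity
    have h9 : -(1 / 2) ≤ θ := by linarith
    have h10 : -(1 / 2) * T ≤ T * θ := by nlinarith
    simp only [CharP.cast_eq_zero] at h1
    nlinarith

/-! ### Hitting -/

lemma pl_nonneg {T a c : ℕ} (h1 : a * T ≤ c) (h2 : c ≤ (a + 1) * T) : 0 ≤ pl T a c := by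
  have h := pl_le (a' := 0) h1 h2
  have : 0 ≤ pl T 0 c := by
    simp only [pl]
    push_cast
    have : (0 : ℝ) ≤ (2 * 0 + 1) * T * c := by positivity
    linarith
  linarith

lemma pl_le_big {M T a c : ℕ} (hT : 1 ≤ T) (ha : a < M) (h2 : c ≤ (a + 1) * T) :
    pl T a c ≤ big M T := by
  have hT' : (1 : ℝ) ≤ T := by exact_mod_cast hT
  have h1 : (a : ℝ) + 1 ≤ M := by exact_mod_cast ha
  have h3 : (c : ℝ) ≤ (a + 1) * T := by exact_mod_cast h2
  have h4 : (0 : ℝ) ≤ a := Nat.cast_nonneg a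
  have h5 : (0 : ℝ) ≤ c := Nat.cast_nonneg c
  have h6 : (c : ℝ) ≤ M * T := by nlinarith
  have h7 : (2 * (a : ℝ) + 1) * T ≤ 2 * (M * T) := by nlinarith
  have h8 : (2 * (a : ℝ) + 1) * T * c ≤ 2 * (M * T) * (M * T) :=
    mul_le_mul h7 h6 h5 (by positivity)
  have h9 : (0 : ℝ) ≤ a * (a + 1) * T ^ 2 := by positivity
  unfold pl big
  nlinarith

lemma XS_hit {M T a a' c : ℕ} (hT : 1 ≤ T) (ha : a < M) (h1 : a * T ≤ c)
    (h2 : c ≤ (a + 1) * T) (l : ℕ) : (XS M T a' l ∩ ln c (pl T a c)).Nonempty := by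
  refine hit_hull (p := pt (-((2 * a' + 1) * T)) (-(a' * (a' + 1) * T ^ 2)))
    (q := pt (-((2 * a' + 1) * T)) (big M T + l)) (by simp) (by simp) ?_ ?_
  · have := pl_le (a' := a') h1 h2
    rw [ht_pt]
    unfold pl at this ⊢
    linarith
  · have h3 := pl_le_big hT ha h2
    rw [ht_pt]
    have h4 : (0 : ℝ) ≤ l := Nat.cast_nonneg l
    have h5 : (0 : ℝ) ≤ c * ((2 * a' + 1) * T) := by positivity
    linarith

lemma YS_hit {M T a c : ℕ} {r : ℕ → ℕ} (ha : a < M) (h1 : a * T ≤ c)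
    (h2 : c ≤ (a + 1) * T) (hT : 1 ≤ T) (hr : r a ≠ c) (h : ℕ) :
    (YS M T r h ∩ ln c (pl T a c)).Nonempty := by
  have hbot : ht c (pt 0 (-(big M T + h))) ≤ pl T a c := by
    rw [ht_pt]
    have := pl_nonneg h1 h2
    have hb := big_pos (M := M) hT
    have h4 : (0 : ℝ) ≤ h := Nat.cast_nonneg h
    linarith
  rcases lt_or_gt_of_ne hr with hlt | hgt
  · refine hit_hull (q := vp T r a) (Or.inr rfl) (Or.inl (Or.inl ⟨a, ha, rfl⟩)) hbot ?_
    rw [vp, ht_pt]
    have : (r a : ℝ) + 1 ≤ c := by exact_mod_cast hlt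
    unfold pl
    linarith
  · refine hit_hull (q := vm T r a) (Or.inr rfl) (Or.inl (Or.inr ⟨a, ha, rfl⟩)) hbot ?_
    rw [vm, ht_pt]
    have : (c : ℝ) + 1 ≤ r a := by exact_mod_cast hgt
    unfold pl
    linarith

lemma WL_hit {M T s a c l : ℕ} (ha : a < M) (h1 : a * T ≤ c)
    (h2 : c ≤ (a + 1) * T) (hT : 1 ≤ T) (hc : 1 ≤ c) (hl : l < s) :
    (WL M T s l ∩ ln c (pl T a c)).Nonempty := by
  have hb := big_pos (M := M) hT
  obtain ⟨f1, f2⟩ := frac_le hl
  have h3 := pl_le_big hT ha h2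
  have h4 := pl_nonneg h1 h2
  have hcM : (c : ℝ) ≤ M * T := by
    have : c ≤ M * T := h2.trans (Nat.mul_le_mul_right T ha)
    exact_mod_cast this
  have hc' : (1 : ℝ) ≤ c := by exact_mod_cast hc
  refine hit_hull (p := pt (-big M T) (-((M * T + 1) * big M T) + big M T * (l / s)))
    (q := pt (-big M T) 0) (by simp) (by simp) ?_ ?_
  · rw [ht_pt]
    nlinarith
  · rw [ht_pt]
    nlinarith

lemma WR_hit {M T s a c l : ℕ} (ha : a < M) (h1 : a * T ≤ c)
    (h2 : c ≤ (a + 1) * T) (hT : 1 ≤ T) (hc : c + 1 ≤ M * T) (hl : l < s) :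
    (WR M T s l ∩ ln c (pl T a c)).Nonempty := by
  have hb := big_pos (M := M) hT
  obtain ⟨f1, f2⟩ := frac_le hl
  have h3 := pl_le_big hT ha h2
  have h4 := pl_nonneg h1 h2
  have hcM : (c : ℝ) + 1 ≤ M * T := by exact_mod_cast hc
  have hc0 : (0 : ℝ) ≤ c := Nat.cast_nonneg c
  refine hit_hull (p := pt (big M T) (-big M T + big M T * (l / s)))
    (q := pt (big M T) (M * T * big M T)) (by simp) (by simp) ?_ ?_
  · rw [ht_pt]
    nlinarith
  · rw [ht_pt]
    nlinarith

end K3h38.RHO
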