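import Mathlib

/-!
# Partial line transversals: the objects of problem MP_05faf0_co

* `Plane` : the Euclidean plane.
* `IsLine L` : `L` is a line, i.e. `L = {x | ⟪v, x⟫ = c}` with `v ≠ 0`.
* `HasTransversal F` : some line meets every member of the finite family `F`.
* `PropT k F` : every subfamily of `F` with at most `k` members has a line transversal.
* `Admissible k ρ` : for every finite family `F` of compact convex sets with `PropT k F`,
  some subfamily `G ⊆ F` with `|G| ≥ ρ |F|` has a line transversal.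
* `rho k` : the supremum of the admissible `ρ`  (it is shown to be attained).
* `AdmissibleIdx k ρ` : the same property for indexed families (repeated members allowed).
* `rhoIdx k` : the supremum of the `ρ` with `AdmissibleIdx k ρ`.
-/



namespace K3h38.RHO

/-- The Euclidean plane. -/
abbrev Plane := EuclideanSpace ℝ (Fin 2)

/-- `L` is a line of the plane: the set of solutions of `⟪v, x⟫ = c` for some `v ≠ 0`. -/
def IsLine (L : Set Plane) : Prop :=
  ∃ (v : Plane) (c : ℝ), v ≠ 0 ∧ L = {x | inner ℝ v x = c}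

/-- Some line meets every member of `F`. -/
def HasTransversal (F : Finset (Set Plane)) : Prop :=
  ∃ L, IsLine L ∧ ∀ K ∈ F, (K ∩ L).Nonempty

/-- Every subfamily with at most `k` members has a line transversal. -/
def PropT (k : ℕ) (F : Finset (Set Plane)) : Prop :=
  ∀ G ⊆ F, G.card ≤ k → HasTransversal G

/-- `ρ` has the property in the definition of `ρ(k)`. -/
def Admissible (k : ℕ) (ρ : ℝ) : Prop :=
  ∀ F : Finset (Set Plane), (∀ K ∈ F, IsCompact K ∧ Convex ℝ K) → PropT k F →
    ∃ G ⊆ F, ρ * (F.card : ℝ) ≤ (G.card : ℝ) ∧ HasTransversal G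

/-- The optimal fraction `ρ(k)`. -/
noncomputable def rho (k : ℕ) : ℝ := sSup {ρ : ℝ | Admissible k ρ}

/-- The same property for indexed families `K 0, …, K (n-1)` (repeated members allowed). -/
def AdmissibleIdx (k : ℕ) (ρ : ℝ) : Prop :=
  ∀ (n : ℕ) (K : Fin n → Set Plane), (∀ i, IsCompact (K i) ∧ Convex ℝ (K i)) →
    (∀ G : Finset (Fin n), G.card ≤ k → ∃ L, IsLine L ∧ ∀ i ∈ G, (K i ∩ L).Nonempty) →
    ∃ G : Finset (Fin n), ρ * (n : ℝ) ≤ (G.card : ℝ) ∧
      ∃ L, IsLine L ∧ ∀ i ∈ G, (K i ∩ L).Nonempty

/-- The optimal fraction for indexed families. -/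
noncomputable def rhoIdx (k : ℕ) : ℝ := sSup {ρ : ℝ | AdmissibleIdx k ρ}

end K3h38.RHO
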