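import Pool.Agent.K3h38.RHO.Construction

/-!
The family and its two properties.
-/

namespace K3h38.RHO
open Set

/-- Dip positions of the `Z`-polygons. -/
def rz (T a : ℕ) : ℕ → ℕ := fun a' => if a ≤ a' then a' * T else (a' + 1) * T

/-- Dip positions of the `Y`-polygons. -/
def ry {N : ℕ} (T : ℕ) (j : ℕ → Fin N → ℕ) (b : Fin N) : ℕ → ℕ := fun a => a * T + 1 + j a b

lemma rz_mem (T a a' : ℕ) : a' * T ≤ rz T a a' ∧ rz T a a' ≤ (a' + 1) * T := by
  have : a' * T ≤ (a' + 1) * T := Nat.mul_le_mul_right T (by omega)
  unfold rz
  split_ifs <;> omega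

lemma ry_mem {N m : ℕ} {j : ℕ → Fin N → ℕ} {a : ℕ} {b : Fin N} (h : j a b < m) :
    a * (m + 1) ≤ ry (m + 1) j b a ∧ ry (m + 1) j b a ≤ (a + 1) * (m + 1) := by
  unfold ry
  have : (a + 1) * (m + 1) = a * (m + 1) + (m + 1) := by ring
  omega

theorem construction {M m s N k : ℕ} (hM : 1 ≤ M) (hm : 1 ≤ m) (j : ℕ → Fin N → ℕ)
    (hj : ∀ a < M, ∀ b, j a b < m)
    (hfib : ∀ a < M, ∀ c < m, s ≤ (Finset.univ.filter (fun b => j a b = c)).card)
    (hk : ∀ B : Finset (Fin N), B.card ≤ k → ∃ a < M, ∃ c < m, ∀ b ∈ B, j a b ≠ c) :
    ∃ F : Finset (Set Plane), (∀ K ∈ F, IsCompact K ∧ Convex ℝ K) ∧ PropT k F ∧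
      F.card ≤ s * (2 * M + 3) + N ∧ ∀ G ⊆ F, HasTransversal G → G.card + s ≤ F.card := by
  classical
  obtain ⟨T, hTdef⟩ : ∃ T, T = m + 1 := ⟨_, rfl⟩
  have hT : 1 ≤ T := by omega
  have hryT : ∀ b : Fin N, ∀ a < M, a * T ≤ ry T j b a ∧ ry T j b a ≤ (a + 1) * T := by
    intro b a ha
    rw [hTdef]
    exact ry_mem (hj a ha b)
  let FX : Finset (Set Plane) := (Finset.range M ×ˢ Finset.range s).image (fun p => XS M T p.1 p.2)
  let FY : Finset (Set Plane) := Finset.univ.image (fun b : Fin N => YS M T (ry T j b) b)
  let FZ : Finset (Set Plane) :=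
    (Finset.range (M + 1) ×ˢ Finset.range s).image (fun p => YS M T (rz T p.1) p.2)
  let FL : Finset (Set Plane) := (Finset.range s).image (WL M T s)
  let FR : Finset (Set Plane) := (Finset.range s).image (WR M T s)
  let F : Finset (Set Plane) := FX ∪ FY ∪ FZ ∪ FL ∪ FR
  have hFX : FX ⊆ F := fun K hK => by simp only [F, Finset.mem_union]; tauto
  have hFY : FY ⊆ F := fun K hK => by simp only [F, Finset.mem_union]; tauto
  have hFZ : FZ ⊆ F := fun K hK => by simp only [F, Finset.mem_union]; tauto
  have hFL : FL ⊆ F := fun K hK => by simp only [F, Finset.mem_union]; tauto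
  have hFR : FR ⊆ F := fun K hK => by simp only [F, Finset.mem_union]; tauto
  have hcases : ∀ K ∈ F, K ∈ FX ∨ K ∈ FY ∨ K ∈ FZ ∨ K ∈ FL ∨ K ∈ FR := by
    intro K hK
    simp only [F, Finset.mem_union] at hK
    tauto
  refine ⟨F, ?_, ?_, ?_, ?_⟩
  · intro K hK
    rcases hcases K hK with h | h | h | h | h
    · obtain ⟨p, -, rfl⟩ := Finset.mem_image.1 h
      exact XS_cc _ _ _ _
    · obtain ⟨p, -, rfl⟩ := Finset.mem_image.1 h
      exact YS_cc _ _ _ _
    · obtain ⟨p, -, rfl⟩ := Finset.mem_image.1 h
      exact YS_cc _ _ _ _
    · obtain ⟨p, -, rfl⟩ := Finset.mem_image.1 h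
      exact WL_cc _ _ _ _
    · obtain ⟨p, -, rfl⟩ := Finset.mem_image.1 h
      exact WR_cc _ _ _ _
  · -- the property T(k)
    intro G hG hGk
    have hYinj : ∀ b b' : Fin N, YS M T (ry T j b) b = YS M T (ry T j b') b' → b = b' := by
      intro b b' h
      exact Fin.ext (YS_inj hT (hryT b) (hryT b') h)
    let B : Finset (Fin N) := Finset.univ.filter (fun b => YS M T (ry T j b) b ∈ G)
    have hB : B.card ≤ k := by
      refine le_trans ?_ hGk
      refine Finset.card_le_card_of_injOn (fun b => YS M T (ry T j b) b) ?_ ?_
      · intro b hb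
        simpa [B] using hb
      · intro b _ b' _ h
        exact hYinj b b' h
    obtain ⟨a, ha, c0, hc0, hBc⟩ := hk B hB
    obtain ⟨c, hc⟩ : ∃ c, c = a * T + 1 + c0 := ⟨_, rfl⟩
    have hexp : (a + 1) * T = a * T + T := by ring
    have h1 : a * T ≤ c := by omega
    have h2 : c ≤ (a + 1) * T := by omega
    have hMT : (a + 1) * T ≤ M * T := Nat.mul_le_mul_right T ha
    refine ⟨ln c (pl T a c), isLine_ln _ _, ?_⟩
    intro K hK
    rcases hcases K (hG hK) with h | h | h | h | h
    · obtain ⟨p, -, rfl⟩ := Finset.mem_image.1 h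
      exact XS_hit hT ha h1 h2 _
    · obtain ⟨b, -, rfl⟩ := Finset.mem_image.1 h
      have hb : b ∈ B := by simpa [B] using hK
      apply YS_hit ha h1 h2 hT
      have := hBc b hb
      unfold ry
      omega
    · obtain ⟨p, -, rfl⟩ := Finset.mem_image.1 h
      apply YS_hit ha h1 h2 hT
      unfold rz
      split_ifs <;> omega
    · obtain ⟨l, hl, rfl⟩ := Finset.mem_image.1 h
      exact WL_hit ha h1 h2 hT (by omega) (Finset.mem_range.1 hl)
    · obtain ⟨l, hl, rfl⟩ := Finset.mem_image.1 h
      exact WR_hit ha h1 h2 hT (by omega) (Finset.mem_range.1 hl)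
  · -- the number of members
    have c1 : FX.card ≤ M * s := by
      refine Finset.card_image_le.trans ?_
      simp
    have c2 : FY.card ≤ N := by
      refine Finset.card_image_le.trans ?_
      simp
    have c3 : FZ.card ≤ (M + 1) * s := by
      refine Finset.card_image_le.trans ?_
      simp
    have c4 : FL.card ≤ s := by
      refine Finset.card_image_le.trans ?_
      simp
    have c5 : FR.card ≤ s := by
      refine Finset.card_image_le.trans ?_
      simp
    have u1 := Finset.card_union_le (FX ∪ FY ∪ FZ ∪ FL) FR
    have u2 := Finset.card_union_le (FX ∪ FY ∪ FZ) FL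
    have u3 := Finset.card_union_le (FX ∪ FY) FZ
    have u4 := Finset.card_union_le FX FY
    have e : s * (2 * M + 3) = M * s + (M + 1) * s + s + s := by ring
    change (FX ∪ FY ∪ FZ ∪ FL ∪ FR).card ≤ _
    omega
  · -- every line misses at least `s` members
    have key : ∀ L, IsLine L → ∃ E ⊆ F, s ≤ E.card ∧ ∀ K ∈ E, ¬ (K ∩ L).Nonempty := by
      intro L hL
      have cardL : s ≤ FL.card := by
        rw [Finset.card_image_of_injOn, Finset.card_range]
        intro l hl l' hl' h
        exact WL_inj hT (by simpa using hl) (by simpa using hl') h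
      have cardR : s ≤ FR.card := by
        rw [Finset.card_image_of_injOn, Finset.card_range]
        intro l hl l' hl' h
        exact WR_inj hT (by simpa using hl) (by simpa using hl') h
      rcases line_cases hL with ⟨c, rfl⟩ | ⟨θ, τ, rfl⟩
      · by_cases hc : c = -big M T
        · refine ⟨FR, hFR, cardR, ?_⟩
          intro K hK
          obtain ⟨l, hl, rfl⟩ := Finset.mem_image.1 hK
          rintro ⟨p, hp, hp'⟩
          have h1 := (WR_sub hT (Finset.mem_range.1 hl) hp).1
          have h2 : p 0 = c := hp'
          have := big_pos (M := M) hT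
          linarith
        · refine ⟨FL, hFL, cardL, ?_⟩
          intro K hK
          obtain ⟨l, hl, rfl⟩ := Finset.mem_image.1 hK
          rintro ⟨p, hp, hp'⟩
          have h1 := (WL_sub hT (Finset.mem_range.1 hl) hp).1
          have h2 : p 0 = c := hp'
          exact hc (by linarith)
      · by_cases hL' : ∀ K ∈ FL, ¬ (K ∩ ln θ τ).Nonempty
        · exact ⟨FL, hFL, cardL, hL'⟩
        by_cases hR' : ∀ K ∈ FR, ¬ (K ∩ ln θ τ).Nonempty
        · exact ⟨FR, hFR, cardR, hR'⟩
        push Not at hL' hR'
        obtain ⟨K1, hK1, hK1'⟩ := hL'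
        obtain ⟨K2, hK2, hK2'⟩ := hR'
        obtain ⟨l, hl, rfl⟩ := Finset.mem_image.1 hK1
        obtain ⟨l', hl', rfl⟩ := Finset.mem_image.1 hK2
        obtain ⟨r1, r2⟩ := slope_range hT (Finset.mem_range.1 hl) (Finset.mem_range.1 hl')
          hK1' hK2'
        obtain ⟨c, hcM, hθ⟩ := exists_round (M * T) r1 r2
        by_cases hX : ∃ a < M, τ < pl T a θ
        · obtain ⟨a, ha, hlt⟩ := hX
          refine ⟨(Finset.range s).image (XS M T a), ?_, ?_, ?_⟩
          · intro K hK
            obtain ⟨l, hl, rfl⟩ := Finset.mem_image.1 hK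
            apply hFX
            exact Finset.mem_image.2 ⟨(a, l), by simpa [ha] using hl, rfl⟩
          · rw [Finset.card_image_of_injective _ (XS_inj hT a), Finset.card_range]
          · intro K hK
            obtain ⟨l, hl, rfl⟩ := Finset.mem_image.1 hK
            exact XS_miss hT l hlt
        push Not at hX
        have hdm := Nat.div_add_mod c T
        obtain ⟨a, haM, hac⟩ : ∃ a, a = c / T ∧ T * a + c % T = c := ⟨c / T, rfl, hdm⟩
        have hmod : c % T < T := Nat.mod_lt _ (by omega)
        by_cases h0 : c % T = 0
        · -- block boundary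
          have hca : c = a * T := by rw [mul_comm]; omega
          have haM' : a ≤ M := by
            by_contra hcon
            push Not at hcon
            have : (M + 1) * T ≤ a * T := Nat.mul_le_mul_right T hcon
            have e : (M + 1) * T = M * T + T := by ring
            omega
          refine ⟨(Finset.range s).image (fun l => YS M T (rz T a) l), ?_, ?_, ?_⟩
          · intro K hK
            obtain ⟨l, hl, rfl⟩ := Finset.mem_image.1 hK
            apply hFZ
            refine Finset.mem_image.2 ⟨(a, l), ?_, rfl⟩
            rw [Finset.mem_product]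
            exact ⟨Finset.mem_range.2 (by omega), hl⟩
          · rw [Finset.card_image_of_injective, Finset.card_range]
            intro l l' h
            exact YS_inj hT (fun a' _ => rz_mem T a a') (fun a' _ => rz_mem T a a') h
          · intro K hK
            obtain ⟨l, hl, rfl⟩ := Finset.mem_image.1 hK
            refine YS_miss hM hT (fun a' _ => rz_mem T a a') hcM ?_ hθ hX l
            intro a' _ g1 g2
            rw [hca] at g1 g2 ⊢
            have g3 : a' ≤ a := Nat.le_of_mul_le_mul_right g1 hT
            have g4 : a ≤ a' + 1 := Nat.le_of_mul_le_mul_right g2 hT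
            unfold rz
            split_ifs with h
            · have : a' = a := by omega
              rw [this]
            · have : a = a' + 1 := by omega
              rw [this]
        · -- interior point
          obtain ⟨c0, hc0⟩ : ∃ c0, c % T = c0 + 1 := ⟨c % T - 1, by omega⟩
          have hca : c = a * T + 1 + c0 := by rw [mul_comm]; omega
          have haM' : a < M := by
            by_contra hcon
            push Not at hcon
            have : M * T ≤ a * T := Nat.mul_le_mul_right T hcon
            omega
          have hc0m : c0 < m := by omega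
          refine ⟨(Finset.univ.filter (fun b : Fin N => j a b = c0)).image
            (fun b : Fin N => YS M T (ry T j b) b), ?_, ?_, ?_⟩
          · intro K hK
            obtain ⟨b, hb, rfl⟩ := Finset.mem_image.1 hK
            apply hFY
            exact Finset.mem_image.2 ⟨b, Finset.mem_univ _, rfl⟩
          · rw [Finset.card_image_of_injective]
            · exact hfib a haM' c0 hc0m
            · intro b b' h
              exact Fin.ext (YS_inj hT (hryT b) (hryT b') h)
          · intro K hK
            obtain ⟨b, hb, rfl⟩ := Finset.mem_image.1 hK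
            have hb' : j a b = c0 := (Finset.mem_filter.1 hb).2
            refine YS_miss hM hT (hryT b) hcM ?_ hθ hX b
            intro a' _ g1 g2
            have g3 : a' < a + 1 := by
              have : a' * T < (a + 1) * T := by
                have e : (a + 1) * T = a * T + T := by ring
                omega
              exact lt_of_mul_lt_mul_right this (Nat.zero_le T)
            have g4 : a < a' + 1 := by
              have : a * T < (a' + 1) * T := by omega
              exact lt_of_mul_lt_mul_right this (Nat.zero_le T)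
            have g5 : a' = a := by omega
            subst g5
            unfold ry
            omega
    intro G hG hGT
    obtain ⟨L, hL, hGL⟩ := hGT
    obtain ⟨E, hE, hEs, hEL⟩ := key L hL
    have hdisj : Disjoint G E := by
      rw [Finset.disjoint_left]
      intro K hK hK'
      exact hEL K hK' (hGL K hK)
    have := Finset.card_le_card (Finset.union_subset hG hE)
    rw [Finset.card_union_of_disjoint hdisj] at this
    omega

end K3h38.RHO
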