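import Pool.Agent.K3h38.RHO.Defs

/-!
Elementary plane geometry used for the construction: heights with respect to a slope,
lines in slope form, hitting and missing convex hulls of finite sets.
-/

namespace K3h38.RHO
open Set

/-- The point with coordinates `(x, y)`. -/
noncomputable def pt (x y : ℝ) : Plane := !₂[x, y]

@[simp] lemma pt_zero (x y : ℝ) : pt x y 0 = x := by simp [pt]
@[simp] lemma pt_one (x y : ℝ) : pt x y 1 = y := by simp [pt]

lemma inner_coord (v x : Plane) : inner ℝ v x = v 0 * x 0 + v 1 * x 1 := by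
  simp [PiLp.inner_apply, Fin.sum_univ_two, mul_comm]

/-- Height of `p` above the line through the origin with slope `θ`. -/
def ht (θ : ℝ) (p : Plane) : ℝ := p 1 - θ * p 0

@[simp] lemma ht_pt (θ x y : ℝ) : ht θ (pt x y) = y - θ * x := by simp [ht]

lemma ht_linear (θ : ℝ) : IsLinearMap ℝ (ht θ) :=
  ⟨fun x y => by simp [ht]; ring, fun c x => by simp [ht]; ring⟩

lemma ht_continuous (θ : ℝ) : Continuous (ht θ) := by
  unfold ht
  fun_prop

/-- The line `y = θ x + τ`. -/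
def ln (θ τ : ℝ) : Set Plane := {p | ht θ p = τ}

lemma isLine_ln (θ τ : ℝ) : IsLine (ln θ τ) := by
  refine ⟨pt (-θ) 1, τ, ?_, ?_⟩
  · intro h
    have := congrArg (fun p : Plane => p 1) h
    simp at this
  · ext p
    simp only [ln, mem_setOf_eq, inner_coord, pt_zero, pt_one, ht]
    constructor <;> intro h <;> linarith

lemma line_cases {L : Set Plane} (hL : IsLine L) :
    (∃ c : ℝ, L = {p | p 0 = c}) ∨ ∃ θ τ : ℝ, L = ln θ τ := by
  obtain ⟨v, c, hv, rfl⟩ := hL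
  by_cases h1 : v 1 = 0
  · left
    have h0 : v 0 ≠ 0 := by
      intro h0
      apply hv
      ext i
      fin_cases i
      · simpa using h0
      · simpa using h1
    refine ⟨c / v 0, ?_⟩
    ext p
    simp only [mem_setOf_eq, inner_coord, h1]
    rw [eq_div_iff h0]
    constructor <;> intro h <;> linarith
  · right
    refine ⟨-(v 0) / v 1, c / v 1, ?_⟩
    ext p
    simp only [ln, mem_setOf_eq, inner_coord, ht]
    rw [eq_div_iff h1]
    have : (p 1 - -(v 0) / v 1 * p 0) * v 1 = v 0 * p 0 + v 1 * p 1 := by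
      field_simp
      ring
    rw [this]

lemma hit_of_le {K : Set Plane} (hK : Convex ℝ K) {θ τ : ℝ} {p q : Plane} (hp : p ∈ K) (hq : q ∈ K)
    (h1 : ht θ p ≤ τ) (h2 : τ ≤ ht θ q) : (K ∩ ln θ τ).Nonempty := by
  obtain ⟨x, hx, hx'⟩ := hK.isPreconnected.intermediate_value hp hq (ht_continuous θ).continuousOn
    ⟨h1, h2⟩
  exact ⟨x, hx, hx'⟩

lemma hit_hull {S : Set Plane} {θ τ : ℝ} {p q : Plane} (hp : p ∈ S) (hq : q ∈ S)
    (h1 : ht θ p ≤ τ) (h2 : τ ≤ ht θ q) : (convexHull ℝ S ∩ ln θ τ).Nonempty :=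
  hit_of_le (convex_convexHull ℝ S) (subset_convexHull ℝ S hp) (subset_convexHull ℝ S hq) h1 h2

lemma miss_below {S : Set Plane} {θ τ : ℝ} (h : ∀ p ∈ S, ht θ p < τ) :
    ¬ (convexHull ℝ S ∩ ln θ τ).Nonempty := by
  rintro ⟨x, hx, hx'⟩
  have : convexHull ℝ S ⊆ {p | ht θ p < τ} :=
    convexHull_min h (convex_halfSpace_lt (ht_linear θ) τ)
  have h1 := this hx
  simp only [ln, mem_setOf_eq] at hx' h1
  linarith

lemma miss_above {S : Set Plane} {θ τ : ℝ} (h : ∀ p ∈ S, τ < ht θ p) :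
    ¬ (convexHull ℝ S ∩ ln θ τ).Nonempty := by
  rintro ⟨x, hx, hx'⟩
  have : convexHull ℝ S ⊆ {p | τ < ht θ p} :=
    convexHull_min h (convex_halfSpace_gt (ht_linear θ) τ)
  have h1 := this hx
  simp only [ln, mem_setOf_eq] at hx' h1
  linarith

lemma coord_linear (i : Fin 2) : IsLinearMap ℝ (fun q : Plane => q i) :=
  ⟨fun x y => by simp, fun c x => by simp⟩

lemma label_top {S : Set Plane} {p : Plane} (hp : p ∈ S) (h : ∀ q ∈ S, q 1 ≤ p 1) :
    IsGreatest ((fun q : Plane => q 1) '' convexHull ℝ S) (p 1) := by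
  refine ⟨⟨p, subset_convexHull ℝ S hp, rfl⟩, ?_⟩
  rintro _ ⟨x, hx, rfl⟩
  have : convexHull ℝ S ⊆ {q : Plane | q 1 ≤ p 1} :=
    convexHull_min h (convex_halfSpace_le (coord_linear 1) (p 1))
  exact this hx

lemma label_bot {S : Set Plane} {p : Plane} (hp : p ∈ S) (h : ∀ q ∈ S, p 1 ≤ q 1) :
    IsLeast ((fun q : Plane => q 1) '' convexHull ℝ S) (p 1) := by
  refine ⟨⟨p, subset_convexHull ℝ S hp, rfl⟩, ?_⟩
  rintro _ ⟨x, hx, rfl⟩
  have : convexHull ℝ S ⊆ {q : Plane | p 1 ≤ q 1} :=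
    convexHull_min h (convex_halfSpace_ge (coord_linear 1) (p 1))
  exact this hx

/-- The chord of `θ ↦ θ²` over `[aT, (a+1)T]`. -/
noncomputable def pl (T : ℕ) (a : ℕ) (θ : ℝ) : ℝ := (2 * a + 1) * T * θ - a * (a + 1) * T ^ 2

lemma pl_succ (T a : ℕ) (θ : ℝ) : pl T (a + 1) θ = pl T a θ + 2 * T * (θ - (a + 1) * T) := by
  simp only [pl]
  push_cast
  ring

/-- The dip lemma. -/
lemma dip {M T : ℕ} (hT : 1 ≤ T) {r : ℕ → ℕ}
    (hr : ∀ a < M, a * T ≤ r a ∧ r a ≤ (a + 1) * T) {c : ℕ} (hcM : c ≤ M * T)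
    (hc : ∀ a < M, a * T ≤ c → c ≤ (a + 1) * T → r a = c) {θ : ℝ} (hθ : |θ - c| ≤ 1 / 2)
    {a' : ℕ} (ha' : a' < M) :
    ∃ a < M, pl T a' θ + |θ - r a'| / 4 - 3 / 16 < pl T a θ := by
  have hT' : (1 : ℝ) ≤ T := by exact_mod_cast hT
  obtain ⟨hθ1, hθ2⟩ := abs_le.1 hθ
  by_cases h1 : a' * T ≤ c
  · by_cases h2 : c ≤ (a' + 1) * T
    · refine ⟨a', ha', ?_⟩
      rw [hc a' ha' h1 h2]
      linarith
    · push Not at h2
      have h3 : a' + 1 < M := by
        by_contra h4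
        push Not at h4
        have : M * T ≤ (a' + 1) * T := Nat.mul_le_mul_right T h4
        omega
      refine ⟨a' + 1, h3, ?_⟩
      rw [pl_succ]
      have h5 : ((a' : ℝ) + 1) * T + 1 ≤ c := by exact_mod_cast h2
      have h6 : (r a' : ℝ) ≤ (a' + 1) * T := by exact_mod_cast (hr a' ha').2
      have h7 : (a' : ℝ) * T ≤ r a' := by exact_mod_cast (hr a' ha').1
      rw [abs_of_nonneg (by linarith)]
      have h8 : (1 : ℝ) / 2 ≤ θ - (a' + 1) * T := by linarith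
      nlinarith
  · push Not at h1
    have h3 : 1 ≤ a' := by
      rcases Nat.eq_zero_or_pos a' with h | h
      · subst h
        simp at h1
      · exact h
    obtain ⟨a, rfl⟩ : ∃ a, a' = a + 1 := ⟨a' - 1, by omega⟩
    refine ⟨a, by omega, ?_⟩
    rw [pl_succ]
    have h5 : (c : ℝ) + 1 ≤ ((a : ℝ) + 1) * T := by exact_mod_cast h1
    have h6 : (r (a + 1) : ℝ) ≤ (a + 1 + 1) * T := by exact_mod_cast (hr (a + 1) ha').2
    have h7 : ((a : ℝ) + 1) * T ≤ r (a + 1) := by exact_mod_cast (hr (a + 1) ha').1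
    rw [abs_of_nonpos (by linarith)]
    have h8 : (1 : ℝ) / 2 ≤ (a + 1) * T - θ := by linarith
    nlinarith

/-- At an integer point of its own block the chord is the largest one. -/
lemma pl_le {T a a' : ℕ} {c : ℕ} (h1 : a * T ≤ c) (h2 : c ≤ (a + 1) * T) :
    pl T a' c ≤ pl T a c := by
  have h1' : (a : ℝ) * T ≤ c := by exact_mod_cast h1
  have h2' : (c : ℝ) ≤ (a + 1) * T := by exact_mod_cast h2
  have key : pl T a c - pl T a' c = ((a : ℝ) - a') * T * (2 * c - (a + a' + 1) * T) := by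
    simp only [pl]
    ring
  have hT0 : (0 : ℝ) ≤ T := Nat.cast_nonneg T
  rcases lt_trichotomy a a' with h | h | h
  · have h3 : (a : ℝ) + 1 ≤ a' := by exact_mod_cast h
    have h4 : 2 * (c : ℝ) - (a + a' + 1) * T ≤ 0 := by nlinarith
    have h5 : ((a : ℝ) - a') * T ≤ 0 := by nlinarith
    nlinarith
  · subst h
    exact le_rfl
  · have h3 : (a' : ℝ) + 1 ≤ a := by exact_mod_cast h
    have h4 : 0 ≤ 2 * (c : ℝ) - (a + a' + 1) * T := by nlinarith
    have h5 : 0 ≤ ((a : ℝ) - a') * T := by nlinarith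
    nlinarith

lemma exists_round (N : ℕ) {θ : ℝ} (h1 : -(1 / 2) ≤ θ) (h2 : θ ≤ N + 1 / 2) :
    ∃ c : ℕ, c ≤ N ∧ |θ - c| ≤ 1 / 2 := by
  by_cases h : (N : ℝ) ≤ θ + 1 / 2
  · refine ⟨N, le_rfl, ?_⟩
    rw [abs_le]
    constructor <;> linarith
  · push Not at h
    have h0 : 0 ≤ θ + 1 / 2 := by linarith
    refine ⟨⌊θ + 1 / 2⌋₊, ?_, ?_⟩
    · have : ⌊θ + 1 / 2⌋₊ < N := (Nat.floor_lt h0).2 h
      exact this.le
    · have h3 := Nat.floor_le h0
      have h4 := Nat.lt_floor_add_one (θ + 1 / 2)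
      rw [abs_le]
      constructor <;> linarith

end K3h38.RHO
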