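import Mathlib

/-!
The sampling lemma: given sets `Mi i j` of density at least `δ` in a finite type, there is a
small set `g` which meets `Mi i j` for all `i, j ∈ g`.
-/

namespace K3h38.RHO
open Finset

variable {ι : Type*} [Fintype ι] [DecidableEq ι]

lemma sum_weight (A : Finset ι) {ε δ : ℝ} (hε : 0 ≤ ε)
    (hA : δ * Fintype.card ι ≤ A.card) :
    ∑ v : ι, (if v ∈ A then 1 - ε else 1) ≤ (Fintype.card ι : ℝ) * (1 - ε * δ) := by
  have h1 : ∑ v : ι, (if v ∈ A then 1 - ε else 1) = ∑ v : ι, (1 - if v ∈ A then ε else 0) := by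
    refine Finset.sum_congr rfl fun v _ => ?_
    split_ifs <;> ring
  have h2 : ∑ v : ι, (if v ∈ A then ε else 0) = A.card * ε := by
    rw [← Finset.sum_filter, Finset.sum_const, nsmul_eq_mul]
    congr 2
    simp
  rw [h1, Finset.sum_sub_distrib, h2]
  simp only [Finset.sum_const, Finset.card_univ, nsmul_eq_mul, mul_one]
  nlinarith

/-- Exponential moment of the number of hits, in counting form. -/
lemma moment {N : ℕ} (Mi : ι → ι → Finset ι) {δ ε : ℝ} (hε0 : 0 ≤ ε) (hε1 : ε ≤ 1)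
    (hδ0 : 0 ≤ δ) (hδ1 : δ ≤ 1) (hM : ∀ i j, δ * Fintype.card ι ≤ (Mi i j).card) (p q : Fin N) :
    ∑ x : Fin N → ι, ∏ t ∈ univ.filter (fun t => t ≠ p ∧ t ≠ q),
      (if x t ∈ Mi (x p) (x q) then 1 - ε else 1) ≤
      (Fintype.card ι : ℝ) ^ N * (1 - ε * δ) ^ (N - 2) := by
  classical
  set c : ℝ := (Fintype.card ι : ℝ) with hc
  have hc0 : 0 ≤ c := Nat.cast_nonneg _
  let pr : Fin N → Prop := fun t => t ≠ p ∧ t ≠ q
  have hp : ¬ pr p := fun h => h.1 rfl
  have hq : ¬ pr q := fun h => h.2 rfl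
  let e := Equiv.piEquivPiSubtypeProd pr (fun _ => ι)
  have hb0 : 0 ≤ 1 - ε * δ := by nlinarith
  have hb1 : 1 - ε * δ ≤ 1 := by nlinarith
  have h1 : ∑ x : Fin N → ι, ∏ t ∈ univ.filter pr,
      (if x t ∈ Mi (x p) (x q) then 1 - ε else 1) =
      ∑ zy : ({t // pr t} → ι) × ({t // ¬ pr t} → ι),
        ∏ t : {t // pr t}, (if zy.1 t ∈ Mi (zy.2 ⟨p, hp⟩) (zy.2 ⟨q, hq⟩) then 1 - ε else 1) := by
    rw [← Equiv.sum_comp e]
    refine Finset.sum_congr rfl fun x _ => ?_
    rw [Finset.prod_subtype (univ.filter pr) (p := pr) (by simp)]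
    rfl
  have h2 : ∑ zy : ({t // pr t} → ι) × ({t // ¬ pr t} → ι),
        ∏ t : {t // pr t}, (if zy.1 t ∈ Mi (zy.2 ⟨p, hp⟩) (zy.2 ⟨q, hq⟩) then 1 - ε else 1) =
      ∑ y : {t // ¬ pr t} → ι, ∏ _t : {t // pr t},
        ∑ v : ι, (if v ∈ Mi (y ⟨p, hp⟩) (y ⟨q, hq⟩) then 1 - ε else 1) := by
    rw [Fintype.sum_prod_type_right]
    refine Finset.sum_congr rfl fun y _ => ?_
    rw [Finset.prod_univ_sum, Fintype.piFinset_univ]
  have hcardp : Fintype.card {t // pr t} + Fintype.card {t // ¬ pr t} = N := by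
    have := Fintype.card_subtype_compl pr
    have h3 := Fintype.card_subtype_le pr
    rw [Fintype.card_fin] at this h3
    omega
  have hcard2 : Fintype.card {t // ¬ pr t} ≤ 2 := by
    rw [Fintype.card_subtype]
    have : univ.filter (fun t => ¬ pr t) ⊆ {p, q} := by
      intro t ht
      simp only [Finset.mem_filter, Finset.mem_univ, true_and, pr, not_and_or, not_not] at ht
      simpa using ht
    exact (Finset.card_le_card this).trans Finset.card_le_two
  change ∑ x : Fin N → ι, ∏ t ∈ univ.filter pr,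
      (if x t ∈ Mi (x p) (x q) then 1 - ε else 1) ≤ _
  rw [h1, h2]
  calc ∑ y : {t // ¬ pr t} → ι, ∏ _t : {t // pr t},
        ∑ v : ι, (if v ∈ Mi (y ⟨p, hp⟩) (y ⟨q, hq⟩) then 1 - ε else 1)
      ≤ ∑ _y : {t // ¬ pr t} → ι, (c * (1 - ε * δ)) ^ (Fintype.card {t // pr t}) := by
        refine Finset.sum_le_sum fun y _ => ?_
        rw [Finset.prod_const, Finset.card_univ]
        refine pow_le_pow_left₀ ?_ (sum_weight _ hε0 (hM _ _)) _
        refine Finset.sum_nonneg fun v _ => ?_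
        split_ifs <;> linarith
    _ = c ^ (Fintype.card {t // ¬ pr t}) * (c * (1 - ε * δ)) ^ (Fintype.card {t // pr t}) := by
        rw [Finset.sum_const, nsmul_eq_mul, Finset.card_univ]
        congr 1
        rw [Fintype.card_fun]
        push_cast
        rfl
    _ = c ^ N * (1 - ε * δ) ^ (Fintype.card {t // pr t}) := by
        rw [mul_pow, ← mul_assoc, ← pow_add]
        congr 2
        omega
    _ ≤ c ^ N * (1 - ε * δ) ^ (N - 2) := by
        refine mul_le_mul_of_nonneg_left ?_ (by positivity)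
        exact pow_le_pow_of_le_one hb0 hb1 (by omega)

/-- A sample in which all the sets indexed by pairs of the sample are still dense. -/
lemma good_sample {N : ℕ} (Mi : ι → ι → Finset ι) {δ ε : ℝ} (hε0 : 0 ≤ ε) (hε1 : ε ≤ 1 / 2)
    (hδ0 : 0 ≤ δ) (hδ1 : δ ≤ 1) (hn : 0 < Fintype.card ι)
    (hM : ∀ i j, δ * Fintype.card ι ≤ (Mi i j).card)
    (h1 : (N : ℝ) ^ 2 * Real.exp (1 - ε ^ 2 * δ * N) < 1) :
    ∃ x : Fin N → ι, ∀ p q, (1 - 2 * ε) * δ * N ≤
      ((univ.filter (fun t => x t ∈ Mi (x p) (x q))).card : ℝ) := by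
  by_contra hcon
  push Not at hcon
  set a : ℝ := (1 - 2 * ε) * δ * N with ha
  have ha0 : 0 ≤ a := by
    have : 0 ≤ 1 - 2 * ε := by linarith
    positivity
  have hb0 : 0 < 1 - ε := by linarith
  have hc0 : (0 : ℝ) < Fintype.card ι := by exact_mod_cast hn
  have hnn : ∀ (x : Fin N → ι) (p q : Fin N), 0 ≤ ∏ t ∈ univ.filter (fun t => t ≠ p ∧ t ≠ q),
      (if x t ∈ Mi (x p) (x q) then 1 - ε else 1) := by
    intro x p q
    refine Finset.prod_nonneg fun t _ => ?_
    split_ifs <;> linarith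
  have hlow : ∀ x : Fin N → ι, (1 - ε) ^ a ≤ ∑ pq : Fin N × Fin N,
      ∏ t ∈ univ.filter (fun t => t ≠ pq.1 ∧ t ≠ pq.2),
        (if x t ∈ Mi (x pq.1) (x pq.2) then 1 - ε else 1) := by
    intro x
    obtain ⟨p, q, hpq⟩ := hcon x
    refine le_trans ?_ (Finset.single_le_sum (f := fun pq : Fin N × Fin N =>
      ∏ t ∈ univ.filter (fun t => t ≠ pq.1 ∧ t ≠ pq.2),
        (if x t ∈ Mi (x pq.1) (x pq.2) then 1 - ε else 1))
      (fun pq _ => hnn x pq.1 pq.2) (Finset.mem_univ (p, q)))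
    simp only
    rw [← Finset.prod_filter, Finset.prod_const, ← Real.rpow_natCast]
    refine Real.rpow_le_rpow_of_exponent_ge hb0 (by linarith) ?_
    refine le_trans ?_ hpq.le
    have : (univ.filter (fun t => t ≠ p ∧ t ≠ q)).filter (fun t => x t ∈ Mi (x p) (x q)) ⊆
        univ.filter (fun t => x t ∈ Mi (x p) (x q)) := by
      intro t ht
      simp only [Finset.mem_filter, Finset.mem_univ, true_and] at ht ⊢
      exact ht.2
    exact_mod_cast Finset.card_le_card this
  have hsum : (Fintype.card ι : ℝ) ^ N * (1 - ε) ^ a ≤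
      (N : ℝ) ^ 2 * ((Fintype.card ι : ℝ) ^ N * (1 - ε * δ) ^ (N - 2)) := by
    calc (Fintype.card ι : ℝ) ^ N * (1 - ε) ^ a = ∑ _x : Fin N → ι, (1 - ε) ^ a := by
          rw [Finset.sum_const, nsmul_eq_mul, Finset.card_univ, Fintype.card_fun, Fintype.card_fin]
          push_cast
          rfl
      _ ≤ ∑ x : Fin N → ι, ∑ pq : Fin N × Fin N,
          ∏ t ∈ univ.filter (fun t => t ≠ pq.1 ∧ t ≠ pq.2),
            (if x t ∈ Mi (x pq.1) (x pq.2) then 1 - ε else 1) :=
          Finset.sum_le_sum fun x _ => hlow x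
      _ = ∑ pq : Fin N × Fin N, ∑ x : Fin N → ι,
          ∏ t ∈ univ.filter (fun t => t ≠ pq.1 ∧ t ≠ pq.2),
            (if x t ∈ Mi (x pq.1) (x pq.2) then 1 - ε else 1) := Finset.sum_comm
      _ ≤ ∑ _pq : Fin N × Fin N, (Fintype.card ι : ℝ) ^ N * (1 - ε * δ) ^ (N - 2) :=
          Finset.sum_le_sum fun pq _ =>
            moment Mi hε0 (by linarith) hδ0 hδ1 hM pq.1 pq.2
      _ = (N : ℝ) ^ 2 * ((Fintype.card ι : ℝ) ^ N * (1 - ε * δ) ^ (N - 2)) := by
          rw [Finset.sum_const, nsmul_eq_mul, Finset.card_univ, Fintype.card_prod,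
            Fintype.card_fin]
          push_cast
          ring
  have hcN : (0 : ℝ) < (Fintype.card ι : ℝ) ^ N := by positivity
  have hsum2 : (1 - ε) ^ a ≤ (N : ℝ) ^ 2 * (1 - ε * δ) ^ (N - 2) := by
    have : (Fintype.card ι : ℝ) ^ N * (1 - ε) ^ a ≤
        (Fintype.card ι : ℝ) ^ N * ((N : ℝ) ^ 2 * (1 - ε * δ) ^ (N - 2)) := by
      calc _ ≤ _ := hsum
        _ = _ := by ring
    exact le_of_mul_le_mul_left this hcN
  -- estimates by exponentials
  have hlog : -(ε / (1 - ε)) ≤ Real.log (1 - ε) := by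
    have := Real.one_sub_inv_le_log_of_pos hb0
    have e : 1 - (1 - ε)⁻¹ = -(ε / (1 - ε)) := by
      field_simp
      ring
    linarith
  have hL : Real.exp (-(a * (ε / (1 - ε)))) ≤ (1 - ε) ^ a := by
    rw [Real.rpow_def_of_pos hb0, Real.exp_le_exp]
    nlinarith
  have hεδ0 : 0 ≤ ε * δ := mul_nonneg hε0 hδ0
  have hεδ1 : ε * δ ≤ 1 / 2 := by nlinarith
  have hR : (1 - ε * δ) ^ (N - 2) ≤ Real.exp (2 * (ε * δ) - ε * δ * N) := by
    have h2 : (1 - ε * δ) ^ (N - 2) ≤ (Real.exp (-(ε * δ))) ^ (N - 2) := by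
      refine pow_le_pow_left₀ (by linarith) ?_ _
      have := Real.add_one_le_exp (-(ε * δ))
      linarith
    refine h2.trans ?_
    rw [← Real.exp_nat_mul, Real.exp_le_exp]
    have h3 : (N : ℝ) - 2 ≤ ((N - 2 : ℕ) : ℝ) := by
      have : (N : ℝ) ≤ ((N - 2 : ℕ) : ℝ) + 2 := by exact_mod_cast (by omega : N ≤ N - 2 + 2)
      linarith
    nlinarith
  have hfin : 1 ≤ (N : ℝ) ^ 2 * Real.exp (1 - ε ^ 2 * δ * N) := by
    have h4 : Real.exp (-(a * (ε / (1 - ε)))) ≤
        (N : ℝ) ^ 2 * Real.exp (2 * (ε * δ) - ε * δ * N) := by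
      refine hL.trans (hsum2.trans ?_)
      exact mul_le_mul_of_nonneg_left hR (by positivity)
    have h5 : 1 ≤ (N : ℝ) ^ 2 * Real.exp (2 * (ε * δ) - ε * δ * N + a * (ε / (1 - ε))) := by
      rw [Real.exp_add, ← mul_assoc]
      have h6 : 0 < Real.exp (a * (ε / (1 - ε))) := Real.exp_pos _
      have h7 : Real.exp (-(a * (ε / (1 - ε)))) * Real.exp (a * (ε / (1 - ε))) = 1 := by
        rw [← Real.exp_add]
        simp
      calc (1 : ℝ) = Real.exp (-(a * (ε / (1 - ε)))) * Real.exp (a * (ε / (1 - ε))) := h7.symm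
        _ ≤ _ := mul_le_mul_of_nonneg_right h4 h6.le
    refine h5.trans (mul_le_mul_of_nonneg_left (Real.exp_le_exp.2 ?_) (by positivity))
    have h8 : a * (ε / (1 - ε)) ≤ ε * δ * N * (1 - ε) := by
      rw [ha]
      have h9 : (1 - 2 * ε) * (ε / (1 - ε)) ≤ ε * (1 - ε) := by
        rw [mul_div_assoc', div_le_iff₀ hb0]
        nlinarith [sq_nonneg ε, mul_nonneg hε0 (sq_nonneg ε)]
      have h10 : (0 : ℝ) ≤ δ * N := by positivity
      nlinarith
    nlinarith
  linarith

/-- **Sampling lemma.** -/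
theorem sampling (Mi : ι → ι → Finset ι) {δ ε : ℝ} (hε0 : 0 ≤ ε) (hε1 : ε < 1 / 2)
    (hδ0 : 0 < δ) (hδ1 : δ ≤ 1) (hn : 0 < Fintype.card ι)
    (hM : ∀ i j, δ * Fintype.card ι ≤ (Mi i j).card) {N k' : ℕ} (hN : 0 < N)
    (h1 : (N : ℝ) ^ 2 * Real.exp (1 - ε ^ 2 * δ * N) < 1) :
    ∃ g : Finset ι, (g.card : ℝ) ≤ k' + (N : ℝ) ^ 2 * Real.exp (-((1 - 2 * ε) * δ * k')) ∧
      (0 < k' → g.Nonempty) ∧ ∀ i ∈ g, ∀ j ∈ g, ∃ z ∈ g, z ∈ Mi i j := by
  obtain ⟨x, hx⟩ := good_sample Mi hε0 hε1.le hδ0.le hδ1 hn hM h1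
  let A : Fin N × Fin N → Finset (Fin N) :=
    fun pq => univ.filter (fun t => x t ∈ Mi (x pq.1) (x pq.2))
  have hA : ∀ pq, (1 - 2 * ε) * δ * N ≤ ((A pq).card : ℝ) := fun pq => hx pq.1 pq.2
  have hN' : (0 : ℝ) < N := by exact_mod_cast hN
  let bad : (Fin k' → Fin N) → Finset (Fin N × Fin N) :=
    fun u => univ.filter (fun pq => ∀ r, u r ∉ A pq)
  have : Nonempty (Fin N) := ⟨⟨0, hN⟩⟩
  obtain ⟨u, -, hu⟩ : ∃ u ∈ (univ : Finset (Fin k' → Fin N)),
      ((bad u).card : ℝ) ≤ (N : ℝ) ^ 2 * Real.exp (-((1 - 2 * ε) * δ * k')) := by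
    refine Finset.exists_le_of_sum_le Finset.univ_nonempty ?_
    have e1 : ∑ u : Fin k' → Fin N, ((bad u).card : ℝ) =
        ∑ pq : Fin N × Fin N, (((univ : Finset (Fin k' → Fin N)).filter
          (fun u => ∀ r, u r ∉ A pq)).card : ℝ) := by
      have := Finset.sum_card_bipartiteAbove_eq_sum_card_bipartiteBelow
        (s := (univ : Finset (Fin k' → Fin N))) (t := (univ : Finset (Fin N × Fin N)))
        (fun u pq => ∀ r, u r ∉ A pq)
      simp only [Finset.bipartiteAbove, Finset.bipartiteBelow] at this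
      exact_mod_cast this
    have e2 : ∀ pq : Fin N × Fin N, (((univ : Finset (Fin k' → Fin N)).filter
          (fun u => ∀ r, u r ∉ A pq)).card : ℝ) ≤
          (N : ℝ) ^ k' * Real.exp (-((1 - 2 * ε) * δ * k')) := by
      intro pq
      have f1 : (univ : Finset (Fin k' → Fin N)).filter (fun u => ∀ r, u r ∉ A pq) =
          Fintype.piFinset (fun _ => (A pq)ᶜ) := by
        ext u
        simp
      rw [f1, Fintype.card_piFinset, Finset.prod_const, Finset.card_univ, Fintype.card_fin,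
        Finset.card_compl, Fintype.card_fin]
      have f2 : (A pq).card ≤ N := by
        have := Finset.card_le_univ (A pq)
        rwa [Fintype.card_fin] at this
      push_cast [Nat.cast_sub f2]
      have f3 : ((N : ℝ) - (A pq).card) ≤ N * Real.exp (-((1 - 2 * ε) * δ)) := by
        have f4 := Real.add_one_le_exp (-((1 - 2 * ε) * δ))
        have f5 := hA pq
        nlinarith
      calc ((N : ℝ) - (A pq).card) ^ k' ≤ (N * Real.exp (-((1 - 2 * ε) * δ))) ^ k' := by
            refine pow_le_pow_left₀ ?_ f3 _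
            have : ((A pq).card : ℝ) ≤ N := by exact_mod_cast f2
            linarith
        _ = (N : ℝ) ^ k' * Real.exp (-((1 - 2 * ε) * δ * k')) := by
            rw [mul_pow, ← Real.exp_nat_mul]
            congr 2
            ring
    rw [e1]
    calc ∑ pq : Fin N × Fin N, (((univ : Finset (Fin k' → Fin N)).filter
          (fun u => ∀ r, u r ∉ A pq)).card : ℝ)
        ≤ ∑ _pq : Fin N × Fin N, (N : ℝ) ^ k' * Real.exp (-((1 - 2 * ε) * δ * k')) :=
          Finset.sum_le_sum fun pq _ => e2 pq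
      _ = ∑ _u : Fin k' → Fin N, (N : ℝ) ^ 2 * Real.exp (-((1 - 2 * ε) * δ * k')) := by
          rw [Finset.sum_const, Finset.sum_const, Finset.card_univ, Finset.card_univ,
            Fintype.card_prod, Fintype.card_fun, Fintype.card_fin, Fintype.card_fin]
          simp only [nsmul_eq_mul]
          push_cast
          ring
  have hpick : ∀ pq : Fin N × Fin N, ∃ t, t ∈ A pq := by
    intro pq
    have h2 := hA pq
    have h3 : 0 < (1 - 2 * ε) * δ * N := by
      have : 0 < 1 - 2 * ε := by linarith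
      positivity
    have h4 : (0 : ℝ) < (A pq).card := by linarith
    have h5 : 0 < (A pq).card := by exact_mod_cast h4
    exact Finset.card_pos.1 h5
  choose pick hpick using hpick
  refine ⟨univ.image (fun r => x (u r)) ∪ (bad u).image (fun pq => x (pick pq)), ?_, ?_, ?_⟩
  · have h2 := Finset.card_union_le (univ.image (fun r => x (u r)))
      ((bad u).image (fun pq => x (pick pq)))
    have h3 : (univ.image (fun r => x (u r))).card ≤ k' := by
      refine Finset.card_image_le.trans ?_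
      simp
    have h4 : ((bad u).image (fun pq => x (pick pq))).card ≤ (bad u).card := Finset.card_image_le
    have h5 : (((univ.image (fun r => x (u r)) ∪
        (bad u).image (fun pq => x (pick pq))).card : ℕ) : ℝ) ≤ k' + (bad u).card := by
      exact_mod_cast h2.trans (add_le_add h3 h4)
    linarith
  · intro hk
    exact ⟨x (u ⟨0, hk⟩), Finset.mem_union_left _ (Finset.mem_image_of_mem _ (Finset.mem_univ _))⟩
  · have hrange : ∀ i ∈ univ.image (fun r => x (u r)) ∪ (bad u).image (fun pq => x (pick pq)),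
        ∃ p, i = x p := by
      intro i hi
      rcases Finset.mem_union.1 hi with h | h
      · obtain ⟨r, -, rfl⟩ := Finset.mem_image.1 h
        exact ⟨_, rfl⟩
      · obtain ⟨r, -, rfl⟩ := Finset.mem_image.1 h
        exact ⟨_, rfl⟩
    intro i hi j hj
    obtain ⟨p, rfl⟩ := hrange i hi
    obtain ⟨q, rfl⟩ := hrange j hj
    by_cases hb : (p, q) ∈ bad u
    · refine ⟨x (pick (p, q)), Finset.mem_union_right _ (Finset.mem_image_of_mem _ hb), ?_⟩
      have := hpick (p, q)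
      simpa [A] using this
    · simp only [bad, Finset.mem_filter, Finset.mem_univ, true_and, not_forall, not_not] at hb
      obtain ⟨r, hr⟩ := hb
      refine ⟨x (u r), Finset.mem_union_left _ (Finset.mem_image_of_mem _ (Finset.mem_univ _)), ?_⟩
      simpa [A] using hr

end K3h38.RHO
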