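import Pool.Agent.K3h38.RHO.Canon
import Pool.Agent.K3h38.RHO.Sampling

/-!
The lower bound for `ρ(k)`: for every `γ > 1`, `1 - γ log k / k` is admissible for large `k`.
-/

namespace K3h38.RHO
open Finset Filter Topology

/-- From the sampling lemma: if the numerical conditions hold then `1 - δ` is admissible. -/
theorem admissible_of {k N k' : ℕ} {δ ε : ℝ} (hk1 : 1 ≤ k) (hε0 : 0 ≤ ε) (hε1 : ε < 1 / 2)
    (hδ0 : 0 < δ) (hδ1 : δ ≤ 1) (hN : 0 < N) (hk' : 0 < k')
    (h1 : (N : ℝ) ^ 2 * Real.exp (1 - ε ^ 2 * δ * N) < 1)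
    (h2 : k' + (N : ℝ) ^ 2 * Real.exp (-((1 - 2 * ε) * δ * k')) ≤ k) :
    AdmissibleIdx k (1 - δ) := by
  classical
  intro n K hK hT
  rcases Nat.eq_zero_or_pos n with hn | hn
  · subst hn
    refine ⟨∅, by simp, ?_⟩
    obtain ⟨L, hL, -⟩ := hT ∅ (by simp)
    exact ⟨L, hL, by simp⟩
  have hne : ∀ i, (K i).Nonempty := by
    intro i
    obtain ⟨L, -, h⟩ := hT {i} (by simpa using hk1)
    exact (h i (by simp)).mono Set.inter_subset_left
  obtain ⟨L, hL, hcard⟩ : ∃ L, IsLine L ∧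
      ((univ.filter (fun z => ¬ (K z ∩ L).Nonempty)).card : ℝ) < δ * n := by
    by_contra hcon'
    have hcon : ∀ L, IsLine L →
        δ * n ≤ ((univ.filter (fun z => ¬ (K z ∩ L).Nonempty)).card : ℝ) :=
      fun L hL => le_of_not_gt (fun h => hcon' ⟨L, hL, h⟩)
    obtain ⟨g, hg1, hg2, hg3⟩ := sampling
      (fun i j : Fin n => univ.filter (fun z => ¬ (K z ∩ cl K i j).Nonempty)) hε0 hε1 hδ0 hδ1
      (by simpa using hn) (by
        intro i j
        rw [Fintype.card_fin]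
        exact hcon _ (isLine_cl K i j)) hN h1
    have hgk : g.card ≤ k := by
      have : (g.card : ℝ) ≤ k := hg1.trans h2
      exact_mod_cast this
    obtain ⟨i, hi, j, hj, hij⟩ := exists_canonical K hne (fun i => (hK i).1) (fun i => (hK i).2)
      (hg2 hk') (hT g hgk)
    obtain ⟨z, hz, hz'⟩ := hg3 i hi j hj
    have h3 := hij z hz
    simp only [Finset.mem_filter, Finset.mem_univ, true_and] at hz'
    exact hz' h3
  refine ⟨univ.filter (fun z => (K z ∩ L).Nonempty), ?_, L, hL, ?_⟩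
  · have h3 := Finset.card_filter_add_card_filter_not (s := (univ : Finset (Fin n)))
      (p := fun z => (K z ∩ L).Nonempty)
    rw [Finset.card_univ, Fintype.card_fin] at h3
    have h4 : ((univ.filter (fun z => (K z ∩ L).Nonempty)).card : ℝ) +
        ((univ.filter (fun z => ¬ (K z ∩ L).Nonempty)).card : ℝ) = n := by exact_mod_cast h3
    linarith
  · intro i hi
    exact (Finset.mem_filter.1 hi).2

theorem lower_asymptotic {γ : ℝ} (hγ : 1 < γ) :
    ∀ᶠ k : ℕ in atTop, AdmissibleIdx k (1 - γ * (Real.log k / k)) := by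
  obtain ⟨ε, hε0, hε1, hε2⟩ : ∃ ε : ℝ, 0 < ε ∧ ε ≤ 1 / 8 ∧ 1 + 8 * ε ≤ γ := by
    refine ⟨min (γ - 1) 1 / 8, ?_, ?_, ?_⟩
    · have : 0 < min (γ - 1) 1 := lt_min (by linarith) one_pos
      linarith
    · have := min_le_right (γ - 1) 1
      linarith
    · have := min_le_left (γ - 1) 1
      linarith
  have hcast : Tendsto (fun k : ℕ => (k : ℝ)) atTop atTop := tendsto_natCast_atTop_atTop
  have hlogk : Tendsto (fun k : ℕ => γ * (Real.log k / k)) atTop (𝓝 0) := by
    have h1 : Tendsto (fun x : ℝ => Real.log x / x) atTop (𝓝 0) := by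
      have := Real.isLittleO_log_id_atTop.tendsto_div_nhds_zero
      simpa using this
    have h2 := (h1.comp hcast).const_mul γ
    simpa using h2
  have c1 : ∀ᶠ k : ℕ in atTop, γ * (Real.log k / k) < 1 := hlogk.eventually_lt_const one_pos
  have c2 : ∀ᶠ k : ℕ in atTop, 25 * Real.exp 1 / ε ^ 4 < (k : ℝ) ^ 2 := by
    have h3 : Tendsto (fun k : ℕ => (k : ℝ) ^ 2) atTop atTop :=
      (tendsto_pow_atTop two_ne_zero).comp hcast
    exact h3.eventually_gt_atTop _
  have c3 : ∀ᶠ k : ℕ in atTop, 25 * Real.exp 1 / ε ^ 5 < (k : ℝ) ^ (2 * ε) := by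
    have h3 : Tendsto (fun k : ℕ => (k : ℝ) ^ (2 * ε)) atTop atTop :=
      (tendsto_rpow_atTop (by linarith)).comp hcast
    exact h3.eventually_gt_atTop _
  filter_upwards [c1, c2, c3, eventually_ge_atTop 3] with k h1 h2 h3 h4
  have hk3 : (3 : ℝ) ≤ k := by exact_mod_cast h4
  have hk0 : (0 : ℝ) < k := by linarith
  have hlog : 0 < Real.log k := Real.log_pos (by linarith)
  set δ : ℝ := γ * (Real.log k / k) with hδ
  have hδ0 : 0 < δ := by
    have : 0 < Real.log k / k := div_pos hlog hk0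
    have : 0 < γ := by linarith
    positivity
  have hδk : δ * k = γ * Real.log k := by
    rw [hδ]
    field_simp
  obtain ⟨N, hNdef⟩ : ∃ N : ℕ, N = ⌈4 * k / ε ^ 2⌉₊ := ⟨_, rfl⟩
  have hN1 : 4 * k / ε ^ 2 ≤ N := by rw [hNdef]; exact Nat.le_ceil _
  have hN2 : (N : ℝ) ≤ 5 * k / ε ^ 2 := by
    have h5 : (N : ℝ) < 4 * k / ε ^ 2 + 1 := by
      rw [hNdef]
      exact Nat.ceil_lt_add_one (by positivity)
    have h6 : (1 : ℝ) ≤ k / ε ^ 2 := by
      rw [le_div_iff₀ (by positivity)]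
      nlinarith
    have h7 : 5 * k / ε ^ 2 = 4 * k / ε ^ 2 + k / ε ^ 2 := by ring
    linarith
  have hN0 : 0 < N := by
    have : (0 : ℝ) < N := lt_of_lt_of_le (by positivity) hN1
    exact_mod_cast this
  obtain ⟨k', hk'def⟩ : ∃ k' : ℕ, k' = ⌊(1 - ε) * k⌋₊ := ⟨_, rfl⟩
  have hk'1 : (k' : ℝ) ≤ (1 - ε) * k := by
    rw [hk'def]
    exact Nat.floor_le (by nlinarith)
  have hk'2 : (1 - ε) * k - 1 ≤ k' := by
    rw [hk'def]
    have := Nat.lt_floor_add_one ((1 - ε) * (k : ℝ))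
    linarith
  have hk'0 : 0 < k' := by
    have : (0 : ℝ) < k' := by nlinarith
    exact_mod_cast this
  have hN5 : (N : ℝ) ^ 2 ≤ 25 * k ^ 2 / ε ^ 4 := by
    have h8 : (N : ℝ) ^ 2 ≤ (5 * k / ε ^ 2) ^ 2 := pow_le_pow_left₀ (Nat.cast_nonneg _) hN2 2
    have h9 : (5 * (k : ℝ) / ε ^ 2) ^ 2 = 25 * k ^ 2 / ε ^ 4 := by
      field_simp
      ring
    linarith
  refine admissible_of (N := N) (k' := k') (ε := ε) (by omega) hε0.le (by linarith) hδ0 h1.le
    hN0 hk'0 ?_ ?_
  · -- first numerical condition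
    have h5 : 4 * Real.log k ≤ ε ^ 2 * δ * N := by
      have h6 : ε ^ 2 * δ * (4 * k / ε ^ 2) ≤ ε ^ 2 * δ * N :=
        mul_le_mul_of_nonneg_left hN1 (by positivity)
      have h7 : ε ^ 2 * δ * (4 * k / ε ^ 2) = 4 * (δ * k) := by
        field_simp
      rw [h7, hδk] at h6
      nlinarith
    have h6 : Real.exp (1 - ε ^ 2 * δ * N) ≤ Real.exp 1 / k ^ 4 := by
      have h7 : Real.exp (1 - ε ^ 2 * δ * N) ≤ Real.exp (1 - 4 * Real.log k) :=
        Real.exp_le_exp.2 (by linarith)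
      have h8 : Real.exp (1 - 4 * Real.log k) = Real.exp 1 / k ^ 4 := by
        rw [Real.exp_sub]
        congr 1
        have : Real.exp (4 * Real.log k) = (Real.exp (Real.log k)) ^ 4 := by
          rw [← Real.exp_nat_mul]
          norm_num
        rw [this, Real.exp_log hk0]
      linarith
    calc (N : ℝ) ^ 2 * Real.exp (1 - ε ^ 2 * δ * N)
        ≤ (25 * k ^ 2 / ε ^ 4) * (Real.exp 1 / k ^ 4) :=
          mul_le_mul hN5 h6 (Real.exp_pos _).le (by positivity)
      _ = (25 * Real.exp 1 / ε ^ 4) / k ^ 2 := by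
          field_simp
      _ < 1 := by
          rw [div_lt_one (by positivity)]
          exact h2
  · -- second numerical condition
    have h5 : (1 + 2 * ε) * Real.log k - 1 ≤ (1 - 2 * ε) * δ * k' := by
      have e1 : 0 ≤ (1 - 2 * ε) * δ := by
        have : 0 ≤ 1 - 2 * ε := by linarith
        positivity
      have e2 : (1 - 2 * ε) * δ * ((1 - ε) * k - 1) ≤ (1 - 2 * ε) * δ * k' :=
        mul_le_mul_of_nonneg_left hk'2 e1
      have e3 : (1 - 2 * ε) * δ * ((1 - ε) * k - 1) =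
          (1 - 2 * ε) * (1 - ε) * (δ * k) - (1 - 2 * ε) * δ := by ring
      rw [e3, hδk] at e2
      have e4 : (1 - 2 * ε) * δ ≤ 1 := by nlinarith
      have e5 : 1 + 2 * ε ≤ (1 - 2 * ε) * (1 - ε) * γ := by
        have f1 : 0 ≤ (1 - 2 * ε) * (1 - ε) := by nlinarith
        have f2 : (1 - 2 * ε) * (1 - ε) * (1 + 8 * ε) ≤ (1 - 2 * ε) * (1 - ε) * γ :=
          mul_le_mul_of_nonneg_left hε2 f1
        have f3 : 1 + 2 * ε ≤ (1 - 2 * ε) * (1 - ε) * (1 + 8 * ε) := by
          have : (1 - 2 * ε) * (1 - ε) * (1 + 8 * ε) - (1 + 2 * ε) =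
            ε * (3 - 22 * ε + 16 * ε ^ 2) := by ring
          have h6 : 0 ≤ 3 - 22 * ε + 16 * ε ^ 2 := by nlinarith [sq_nonneg ε]
          have := mul_nonneg hε0.le h6
          linarith
        linarith
      have e6 : (1 + 2 * ε) * Real.log k ≤ (1 - 2 * ε) * (1 - ε) * γ * Real.log k :=
        mul_le_mul_of_nonneg_right e5 hlog.le
      nlinarith
    have h6 : Real.exp (-((1 - 2 * ε) * δ * k')) ≤ Real.exp 1 / (k * (k : ℝ) ^ (2 * ε)) := by
      have h7 : Real.exp (-((1 - 2 * ε) * δ * k')) ≤ Real.exp (1 - (1 + 2 * ε) * Real.log k) :=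
        Real.exp_le_exp.2 (by linarith)
      have h8 : Real.exp (1 - (1 + 2 * ε) * Real.log k) =
          Real.exp 1 / (k * (k : ℝ) ^ (2 * ε)) := by
        rw [Real.exp_sub]
        congr 1
        have : (1 + 2 * ε) * Real.log k = Real.log k + Real.log k * (2 * ε) := by ring
        rw [this, Real.exp_add, Real.exp_log hk0, ← Real.rpow_def_of_pos hk0]
      linarith
    have hkε : 0 < (k : ℝ) ^ (2 * ε) := Real.rpow_pos_of_pos hk0 _
    have h7 : (N : ℝ) ^ 2 * Real.exp (-((1 - 2 * ε) * δ * k')) ≤ ε * k := by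
      calc (N : ℝ) ^ 2 * Real.exp (-((1 - 2 * ε) * δ * k'))
          ≤ (25 * k ^ 2 / ε ^ 4) * (Real.exp 1 / (k * (k : ℝ) ^ (2 * ε))) :=
            mul_le_mul hN5 h6 (Real.exp_pos _).le (by positivity)
        _ = (25 * Real.exp 1 / ε ^ 5) * (ε * k) / (k : ℝ) ^ (2 * ε) := by
            field_simp
        _ ≤ ε * k := by
            rw [div_le_iff₀ hkε]
            have : 0 < ε * k := by positivity
            nlinarith
    linarith

end K3h38.RHO
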