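import Mathlib

/-!
Partitions of a set of `m s` elements into `m` fibres of size `s` such that every set of at most
`K` elements misses a fibre of one of the partitions: existence by a counting argument over
permutations.
-/

namespace K3h38.RHO
open Finset

/-! ### Averaging over permutations -/

section Averaging

variable {Y : Type*} [Fintype Y] [DecidableEq Y]

lemma exists_perm_map {B B' : Finset Y} (h : B.card = B'.card) :
    ∃ π : Equiv.Perm Y, B.map π.toEmbedding = B' := by
  classical
  have hc : Fintype.card {x // x ∈ B} = Fintype.card {x // x ∈ B'} := by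
    simpa using h
  let e : {x // x ∈ B} ≃ {x // x ∈ B'} := Fintype.equivOfCardEq hc
  refine ⟨e.extendSubtype, ?_⟩
  apply Finset.eq_of_subset_of_card_le
  · intro y hy
    obtain ⟨x, hx, rfl⟩ := Finset.mem_map.1 hy
    exact Equiv.extendSubtype_mem e x hx
  · rw [Finset.card_map, h]

lemma card_perm_const (H : Finset (Finset Y)) {B B' : Finset Y} (h : B.card = B'.card) :
    ((univ : Finset (Equiv.Perm Y)).filter (fun σ => B.map σ.toEmbedding ∈ H)).card =
      ((univ : Finset (Equiv.Perm Y)).filter (fun σ => B'.map σ.toEmbedding ∈ H)).card := by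
  obtain ⟨π, hπ⟩ := exists_perm_map h
  symm
  refine Finset.card_bij (fun σ _ => π.trans σ) ?_ ?_ ?_
  · intro σ hσ
    simp only [Finset.mem_filter, Finset.mem_univ, true_and] at hσ ⊢
    rw [← hπ, Finset.map_map] at hσ
    exact hσ
  · intro σ _ τ _ hστ
    ext y
    have := congrArg (fun e : Equiv.Perm Y => e (π.symm y)) hστ
    simpa using this
  · intro τ hτ
    simp only [Finset.mem_filter, Finset.mem_univ, true_and] at hτ
    refine ⟨π.symm.trans τ, ?_, ?_⟩
    · simp only [Finset.mem_filter, Finset.mem_univ, true_and]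
      rw [← hπ, Finset.map_map]
      have : (π.toEmbedding.trans (π.symm.trans τ).toEmbedding) = τ.toEmbedding := by
        ext y
        simp
      rw [this]
      exact hτ
    · ext y
      simp

lemma averaging (K : ℕ) (S H : Finset (Finset Y)) (hS : S ⊆ powersetCard K univ)
    (hH : H ⊆ powersetCard K univ) :
    ∃ σ : Equiv.Perm Y, (S.filter (fun B => B.map σ.toEmbedding ∈ H)).card *
      (powersetCard K (univ : Finset Y)).card ≤ S.card * H.card := by
  classical
  rcases S.eq_empty_or_nonempty with hSe | ⟨B0, hB0⟩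
  · subst hSe
    exact ⟨1, by simp⟩
  have hB0K : B0.card = K := (mem_powersetCard.1 (hS hB0)).2
  set q := ((univ : Finset (Equiv.Perm Y)).filter (fun σ => B0.map σ.toEmbedding ∈ H)).card with hq
  have hqc : ∀ B ∈ powersetCard K (univ : Finset Y),
      ((univ : Finset (Equiv.Perm Y)).filter (fun σ => B.map σ.toEmbedding ∈ H)).card = q := by
    intro B hB
    exact card_perm_const H (by rw [(mem_powersetCard.1 hB).2, hB0K])
  have e1 : (powersetCard K (univ : Finset Y)).card * q =
      (univ : Finset (Equiv.Perm Y)).card * H.card := by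
    have h1 := Finset.sum_card_bipartiteAbove_eq_sum_card_bipartiteBelow
      (s := powersetCard K (univ : Finset Y)) (t := (univ : Finset (Equiv.Perm Y)))
      (fun B σ => B.map σ.toEmbedding ∈ H)
    simp only [Finset.bipartiteAbove, Finset.bipartiteBelow] at h1
    have h2 : ∑ B ∈ powersetCard K (univ : Finset Y),
        ((univ : Finset (Equiv.Perm Y)).filter (fun σ => B.map σ.toEmbedding ∈ H)).card =
        (powersetCard K (univ : Finset Y)).card * q := by
      rw [Finset.sum_congr rfl hqc, Finset.sum_const, smul_eq_mul]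
    have h3 : ∀ σ : Equiv.Perm Y, ((powersetCard K (univ : Finset Y)).filter
        (fun B => B.map σ.toEmbedding ∈ H)).card = H.card := by
      intro σ
      refine Finset.card_bij (fun B _ => B.map σ.toEmbedding) ?_ ?_ ?_
      · intro B hB
        exact (Finset.mem_filter.1 hB).2
      · intro B _ B' _ h
        exact Finset.map_injective _ h
      · intro C hC
        refine ⟨C.map σ.symm.toEmbedding, ?_, ?_⟩
        · have hCK := hH hC
          rw [mem_powersetCard] at hCK
          simp only [Finset.mem_filter, mem_powersetCard, Finset.subset_univ, true_and,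
            Finset.card_map]
          refine ⟨hCK.2, ?_⟩
          rw [Finset.map_map]
          have : σ.symm.toEmbedding.trans σ.toEmbedding = Function.Embedding.refl _ := by
            ext y
            simp
          rw [this, Finset.map_refl]
          exact hC
        · rw [Finset.map_map]
          have : σ.symm.toEmbedding.trans σ.toEmbedding = Function.Embedding.refl _ := by
            ext y
            simp
          rw [this, Finset.map_refl]
    rw [h2, Finset.sum_congr rfl (fun σ _ => h3 σ), Finset.sum_const, smul_eq_mul] at h1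
    exact h1
  have e2 : ∑ σ : Equiv.Perm Y, (S.filter (fun B => B.map σ.toEmbedding ∈ H)).card =
      S.card * q := by
    have h1 := Finset.sum_card_bipartiteAbove_eq_sum_card_bipartiteBelow
      (s := S) (t := (univ : Finset (Equiv.Perm Y)))
      (fun B σ => B.map σ.toEmbedding ∈ H)
    simp only [Finset.bipartiteAbove, Finset.bipartiteBelow] at h1
    rw [← h1, Finset.sum_congr rfl (fun B hB => hqc B (hS hB)), Finset.sum_const, smul_eq_mul]
  have e3 : ∑ σ : Equiv.Perm Y, (S.filter (fun B => B.map σ.toEmbedding ∈ H)).card *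
      (powersetCard K (univ : Finset Y)).card ≤ ∑ _σ : Equiv.Perm Y, S.card * H.card := by
    rw [← Finset.sum_mul, e2, Finset.sum_const, smul_eq_mul]
    have : S.card * q * (powersetCard K (univ : Finset Y)).card =
        S.card * ((powersetCard K (univ : Finset Y)).card * q) := by ring
    rw [this, e1]
    exact le_of_eq (by ring)
  obtain ⟨σ, -, hσ⟩ := Finset.exists_le_of_sum_le
    (Finset.univ_nonempty : (univ : Finset (Equiv.Perm Y)).Nonempty) e3
  exact ⟨σ, hσ⟩

lemma iterate (K : ℕ) (H : Finset (Finset Y)) (hH : H ⊆ powersetCard K univ) (M : ℕ) :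
    ∃ σ : ℕ → Equiv.Perm Y, ((powersetCard K (univ : Finset Y)).filter
      (fun B => ∀ a < M, B.map (σ a).toEmbedding ∈ H)).card *
        (powersetCard K (univ : Finset Y)).card ^ M ≤
        (powersetCard K (univ : Finset Y)).card * H.card ^ M := by
  classical
  induction M with
  | zero =>
    refine ⟨fun _ => 1, ?_⟩
    simp
  | succ M ih =>
    obtain ⟨σ, hσ⟩ := ih
    obtain ⟨τ, hτ⟩ := averaging K ((powersetCard K (univ : Finset Y)).filter
      (fun B => ∀ a < M, B.map (σ a).toEmbedding ∈ H)) H (Finset.filter_subset _ _) hH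
    refine ⟨fun a => if a < M then σ a else τ, ?_⟩
    have h1 : (powersetCard K (univ : Finset Y)).filter
        (fun B => ∀ a < M + 1, B.map (if a < M then σ a else τ).toEmbedding ∈ H) ⊆
        ((powersetCard K (univ : Finset Y)).filter
        (fun B => ∀ a < M, B.map (σ a).toEmbedding ∈ H)).filter
          (fun B => B.map τ.toEmbedding ∈ H) := by
      intro B hB
      simp only [Finset.mem_filter] at hB ⊢
      refine ⟨⟨hB.1, fun a ha => ?_⟩, ?_⟩
      · have := hB.2 a (by omega)
        rwa [if_pos ha] at this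
      · have := hB.2 M (by omega)
        rwa [if_neg (lt_irrefl M)] at this
    have h2 := Finset.card_le_card h1
    set Ω := (powersetCard K (univ : Finset Y)).card with hΩ
    calc _ ≤ (((powersetCard K (univ : Finset Y)).filter
        (fun B => ∀ a < M, B.map (σ a).toEmbedding ∈ H)).filter
          (fun B => B.map τ.toEmbedding ∈ H)).card * Ω ^ (M + 1) :=
          Nat.mul_le_mul_right _ h2
      _ = ((((powersetCard K (univ : Finset Y)).filter
        (fun B => ∀ a < M, B.map (σ a).toEmbedding ∈ H)).filter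
          (fun B => B.map τ.toEmbedding ∈ H)).card * Ω) * Ω ^ M := by ring
      _ ≤ (((powersetCard K (univ : Finset Y)).filter
        (fun B => ∀ a < M, B.map (σ a).toEmbedding ∈ H)).card * H.card) * Ω ^ M :=
          Nat.mul_le_mul_right _ hτ
      _ = (((powersetCard K (univ : Finset Y)).filter
        (fun B => ∀ a < M, B.map (σ a).toEmbedding ∈ H)).card * Ω ^ M) * H.card := by ring
      _ ≤ (Ω * H.card ^ M) * H.card := Nat.mul_le_mul_right _ hσ
      _ = Ω * H.card ^ (M + 1) := by ring

end Averaging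

/-! ### The largest binomial term -/

/-- The binomial term with success probability `K / N`, scaled by `N ^ N`. -/
def bt (N K j : ℕ) : ℕ := N.choose j * K ^ j * (N - K) ^ (N - j)

lemma bt_step {N K j : ℕ} (hj : j < N) :
    bt N K (j + 1) * ((j + 1) * (N - K)) = bt N K j * ((N - j) * K) := by
  unfold bt
  obtain ⟨d, hd⟩ : ∃ d, N - j = d + 1 := ⟨N - j - 1, by omega⟩
  have hd' : N - (j + 1) = d := by omega
  have h := Nat.choose_succ_right_eq N j
  rw [hd, hd']
  rw [hd] at h
  calc N.choose (j + 1) * K ^ (j + 1) * (N - K) ^ d * ((j + 1) * (N - K))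
      = (N.choose (j + 1) * (j + 1)) * (K ^ (j + 1) * (N - K) ^ (d + 1)) := by ring
    _ = (N.choose j * (d + 1)) * (K ^ (j + 1) * (N - K) ^ (d + 1)) := by rw [h]
    _ = _ := by ring

lemma bt_up {N K j : ℕ} (hK : K < N) (hj : j < K) : bt N K j ≤ bt N K (j + 1) := by
  have h1 := bt_step (N := N) (K := K) (j := j) (by omega)
  have h2 : (j + 1) * (N - K) ≤ (N - j) * K := by
    obtain ⟨a, ha⟩ : ∃ a, K = j + 1 + a := ⟨K - (j + 1), by omega⟩
    obtain ⟨b, hb⟩ : ∃ b, N = K + 1 + b := ⟨N - (K + 1), by omega⟩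
    have e1 : N - K = 1 + b := by omega
    have e2 : N - j = 1 + a + 1 + b := by omega
    rw [e1, e2, ha]
    nlinarith
  have h3 : 0 < (j + 1) * (N - K) := Nat.mul_pos (by omega) (by omega)
  have h4 : bt N K j * ((j + 1) * (N - K)) ≤ bt N K (j + 1) * ((j + 1) * (N - K)) := by
    rw [h1]
    exact Nat.mul_le_mul_left _ h2
  exact Nat.le_of_mul_le_mul_right h4 h3

lemma bt_down {N K j : ℕ} (hK : K < N) (hj : K ≤ j) (hjN : j < N) :
    bt N K (j + 1) ≤ bt N K j := by
  have h1 := bt_step (N := N) (K := K) (j := j) hjN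
  have h2 : (N - j) * K ≤ (j + 1) * (N - K) := by
    obtain ⟨a, ha⟩ : ∃ a, j = K + a := ⟨j - K, by omega⟩
    obtain ⟨b, hb⟩ : ∃ b, N = j + 1 + b := ⟨N - (j + 1), by omega⟩
    have e1 : N - K = a + 1 + b := by omega
    have e2 : N - j = 1 + b := by omega
    rw [e1, e2, ha]
    nlinarith
  have h3 : 0 < (j + 1) * (N - K) := Nat.mul_pos (by omega) (by omega)
  have h4 : bt N K (j + 1) * ((j + 1) * (N - K)) ≤ bt N K j * ((j + 1) * (N - K)) := by
    rw [h1]
    exact Nat.mul_le_mul_left _ h2
  exact Nat.le_of_mul_le_mul_right h4 h3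

lemma bt_le {N K : ℕ} (hK : K < N) {j : ℕ} (hj : j ≤ N) : bt N K j ≤ bt N K K := by
  rcases le_total j K with h | h
  · obtain ⟨d, hd⟩ : ∃ d, K = j + d := ⟨K - j, by omega⟩
    have : ∀ d, j + d ≤ K → bt N K j ≤ bt N K (j + d) := by
      intro d
      induction d with
      | zero => intro _; exact le_rfl
      | succ d ih =>
        intro hd
        exact (ih (by omega)).trans (bt_up hK (by omega))
    have := this d (by omega)
    rwa [← hd] at this
  · have : ∀ d, K + d ≤ N → bt N K (K + d) ≤ bt N K K := by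
      intro d
      induction d with
      | zero => intro _; exact le_rfl
      | succ d ih =>
        intro hd
        exact (bt_down (j := K + d) hK (by omega) (by omega)).trans (ih (by omega))
    have := this (j - K) (by omega)
    rwa [show K + (j - K) = j by omega] at this

lemma mode {N K : ℕ} (hK : K < N) : N ^ N ≤ (N + 1) * (N.choose K * K ^ K * (N - K) ^ (N - K)) := by
  have h1 := add_pow K (N - K) N
  have h2 : K + (N - K) = N := by omega
  rw [h2] at h1
  calc N ^ N = ∑ j ∈ range (N + 1), bt N K j := by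
        rw [h1]
        refine Finset.sum_congr rfl fun j _ => ?_
        unfold bt
        push_cast
        ring
    _ ≤ ∑ _j ∈ range (N + 1), bt N K K := by
        refine Finset.sum_le_sum fun j hj => bt_le hK ?_
        have := Finset.mem_range.1 hj
        omega
    _ = (N + 1) * (N.choose K * K ^ K * (N - K) ^ (N - K)) := by
        rw [Finset.sum_const, Finset.card_range, smul_eq_mul]
        rfl

/-! ### Sets hitting all fibres -/

/-- The `K`-element subsets of `Fin m × Fin s` which meet every fibre of the first projection. -/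
def HH (m s K : ℕ) : Finset (Finset (Fin m × Fin s)) :=
  (powersetCard K univ).filter (fun B => ∀ x, ∃ i, (x, i) ∈ B)

lemma sum_wt (s K N : ℕ) (hK : K ≤ N) :
    ∑ A : Finset (Fin s), ∏ i : Fin s, (if i ∈ A then K else N - K) = N ^ s := by
  have h1 := Fintype.prod_add (fun _ : Fin s => K) (fun _ => N - K)
  have h2 : ∏ _i : Fin s, (K + (N - K)) = N ^ s := by
    rw [Finset.prod_const, Finset.card_univ, Fintype.card_fin]
    congr 1
    omega
  rw [← h2, h1]
  refine Finset.sum_congr rfl fun A _ => ?_
  rw [Finset.prod_ite]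
  congr 1
  · congr 1
    ext i
    simp
  · congr 1
    ext i
    simp

lemma card_HH_le {m s K : ℕ} (hK : K ≤ m * s) :
    (HH m s K).card * (K ^ K * (m * s - K) ^ (m * s - K)) ≤
      ((m * s) ^ s - (m * s - K) ^ s) ^ m := by
  classical
  set N := m * s with hN
  let w : Finset (Fin s) → ℕ := fun A =>
    if A.Nonempty then ∏ i : Fin s, (if i ∈ A then K else N - K) else 0
  let c : Finset (Fin m × Fin s) → (Fin m → Finset (Fin s)) :=
    fun B x => univ.filter (fun i => (x, i) ∈ B)
  have hcinj : Function.Injective c := by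
    intro B B' h
    ext ⟨x, i⟩
    have := congrArg (fun f => i ∈ f x) h
    simpa [c] using this
  have hw : ∀ B ∈ HH m s K, K ^ K * (N - K) ^ (N - K) = ∏ x, w (c B x) := by
    intro B hB
    simp only [HH, Finset.mem_filter, mem_powersetCard] at hB
    have h1 : ∀ x, w (c B x) = ∏ i : Fin s, (if (x, i) ∈ B then K else N - K) := by
      intro x
      have hne : (c B x).Nonempty := by
        obtain ⟨i, hi⟩ := hB.2 x
        exact ⟨i, by simp [c, hi]⟩
      simp only [w, if_pos hne]
      refine Finset.prod_congr rfl fun i _ => ?_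
      simp [c]
    rw [Finset.prod_congr rfl (fun x _ => h1 x), ← Fintype.prod_prod_type'
      (f := fun x i => if (x, i) ∈ B then K else N - K)]
    have h2 : ∏ y : Fin m × Fin s, (if (y.1, y.2) ∈ B then K else N - K) =
        K ^ B.card * (N - K) ^ (N - B.card) := by
      rw [Finset.prod_ite, Finset.prod_const, Finset.prod_const]
      congr 2
      · congr 1
        ext y
        simp
      · have : (univ : Finset (Fin m × Fin s)).filter (fun y => ¬ (y.1, y.2) ∈ B) = Bᶜ := by
          ext y
          simp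
        rw [this, Finset.card_compl, Fintype.card_prod, Fintype.card_fin, Fintype.card_fin]
    rw [h2, hB.1.2]
  calc (HH m s K).card * (K ^ K * (N - K) ^ (N - K))
      = ∑ _B ∈ HH m s K, K ^ K * (N - K) ^ (N - K) := by
        rw [Finset.sum_const, smul_eq_mul]
    _ = ∑ B ∈ HH m s K, ∏ x, w (c B x) := Finset.sum_congr rfl hw
    _ = ∑ f ∈ (HH m s K).image c, ∏ x, w (f x) := by
        rw [Finset.sum_image]
        intro B _ B' _ h
        exact hcinj h
    _ ≤ ∑ f : Fin m → Finset (Fin s), ∏ x, w (f x) :=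
        Finset.sum_le_sum_of_subset (Finset.subset_univ _)
    _ = (∑ A : Finset (Fin s), w A) ^ m := (Fintype.sum_pow w m).symm
    _ = (N ^ s - (N - K) ^ s) ^ m := by
        congr 1
        have h3 := sum_wt s K N hK
        rw [← Finset.sum_erase_add _ _ (Finset.mem_univ (∅ : Finset (Fin s)))] at h3
        rw [← Finset.sum_erase_add _ _ (Finset.mem_univ (∅ : Finset (Fin s)))]
        have h4 : w ∅ = 0 := by simp [w]
        have h5 : ∏ i : Fin s, (if i ∈ (∅ : Finset (Fin s)) then K else N - K) =
            (N - K) ^ s := by simp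
        have h6 : ∑ A ∈ univ.erase (∅ : Finset (Fin s)), w A =
            ∑ A ∈ univ.erase (∅ : Finset (Fin s)),
              ∏ i : Fin s, (if i ∈ A then K else N - K) := by
          refine Finset.sum_congr rfl fun A hA => ?_
          have : A.Nonempty := Finset.nonempty_iff_ne_empty.2 (Finset.mem_erase.1 hA).1
          simp only [w, if_pos this]
        rw [h4, h6, add_zero]
        rw [h5] at h3
        omega

/-- The fraction of `K`-subsets which hit all fibres. -/
lemma ratio {m s K : ℕ} (hK : K < m * s) :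
    ((HH m s K).card : ℝ) ≤ (powersetCard K (univ : Finset (Fin m × Fin s))).card *
      (((m * s : ℕ) + 1) * (1 - (1 - K / (m * s : ℕ)) ^ s) ^ m) := by
  set N := m * s with hN
  have hN0 : (0 : ℝ) < N := by exact_mod_cast (by omega : 0 < N)
  have hΩ : (powersetCard K (univ : Finset (Fin m × Fin s))).card = N.choose K := by
    rw [card_powersetCard, Finset.card_univ, Fintype.card_prod, Fintype.card_fin,
      Fintype.card_fin]
  have h1 := card_HH_le (m := m) (s := s) (K := K) hK.le
  have h2 := mode hK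
  rw [← hN] at h1
  rw [hΩ]
  have hKN : (K : ℝ) ≤ N := by exact_mod_cast hK.le
  have e1 : ((N ^ s - (N - K) ^ s : ℕ) : ℝ) = (N : ℝ) ^ s * (1 - (1 - K / N) ^ s) := by
    rw [Nat.cast_sub (Nat.pow_le_pow_left (Nat.sub_le N K) s)]
    push_cast [Nat.cast_sub hK.le]
    have : (N : ℝ) - K = N * (1 - K / N) := by field_simp
    rw [this, mul_pow]
    ring
  have h1' : ((HH m s K).card : ℝ) * ((K : ℝ) ^ K * ((N - K : ℕ) : ℝ) ^ (N - K)) ≤
      ((N : ℝ) ^ s * (1 - (1 - K / N) ^ s)) ^ m := by
    rw [← e1]
    exact_mod_cast h1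
  have h2' : (N : ℝ) ^ N ≤ ((N : ℝ) + 1) * (N.choose K * (K : ℝ) ^ K *
      ((N - K : ℕ) : ℝ) ^ (N - K)) := by
    exact_mod_cast h2
  have e2 : ((N : ℝ) ^ s * (1 - (1 - K / N) ^ s)) ^ m =
      (N : ℝ) ^ N * (1 - (1 - K / N) ^ s) ^ m := by
    rw [mul_pow, ← pow_mul]
    congr 2
    rw [hN, mul_comm]
  rw [e2] at h1'
  set h : ℝ := ((HH m s K).card : ℝ) with hh
  set W : ℝ := (K : ℝ) ^ K * ((N - K : ℕ) : ℝ) ^ (N - K) with hW
  have hh0 : 0 ≤ h := Nat.cast_nonneg _
  have hr0 : 0 ≤ (1 - (1 - (K : ℝ) / N) ^ s) ^ m := by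
    apply pow_nonneg
    have f1 : (0 : ℝ) ≤ 1 - K / N := by
      rw [sub_nonneg, div_le_one hN0]
      exact hKN
    have f2 : (1 : ℝ) - K / N ≤ 1 := by
      have : (0 : ℝ) ≤ K / N := by positivity
      linarith
    have := pow_le_one₀ (n := s) f1 f2
    linarith
  have h3 : h * (N : ℝ) ^ N ≤ (N : ℝ) ^ N *
      (N.choose K * (((N : ℝ) + 1) * (1 - (1 - K / N) ^ s) ^ m)) := by
    calc h * (N : ℝ) ^ N ≤ h * (((N : ℝ) + 1) * (N.choose K * (K : ℝ) ^ K *
          ((N - K : ℕ) : ℝ) ^ (N - K))) := mul_le_mul_of_nonneg_left h2' hh0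
      _ = ((N : ℝ) + 1) * N.choose K * (h * W) := by rw [hW]; ring
      _ ≤ ((N : ℝ) + 1) * N.choose K * ((N : ℝ) ^ N * (1 - (1 - K / N) ^ s) ^ m) :=
          mul_le_mul_of_nonneg_left h1' (by positivity)
      _ = _ := by ring
  have hNN : (0 : ℝ) < (N : ℝ) ^ N := by positivity
  have h4 : (N : ℝ) ^ N * h ≤ (N : ℝ) ^ N *
      (N.choose K * (((N : ℝ) + 1) * (1 - (1 - K / N) ^ s) ^ m)) := by
    rw [mul_comm]
    exact h3
  exact le_of_mul_le_mul_left h4 hNN

/-- **Partition lemma.** -/
theorem partitions {m s K M : ℕ} (hK : K < m * s)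
    (h : (2 : ℝ) ^ (m * s) *
      (((m * s : ℕ) + 1) * (1 - (1 - K / (m * s : ℕ)) ^ s) ^ m) ^ M < 1) :
    ∃ j : ℕ → Fin (m * s) → ℕ, (∀ a b, j a b < m) ∧
      (∀ a, ∀ c < m, s ≤ (Finset.univ.filter (fun b => j a b = c)).card) ∧
      ∀ B : Finset (Fin (m * s)), B.card ≤ K → ∃ a < M, ∃ c < m, ∀ b ∈ B, j a b ≠ c := by
  classical
  obtain ⟨σ, hσ⟩ := iterate K (HH m s K) (Finset.filter_subset _ _) M
  have hcardY : (univ : Finset (Fin m × Fin s)).card = m * s := by
    rw [Finset.card_univ, Fintype.card_prod, Fintype.card_fin, Fintype.card_fin]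
  have hΩ : (powersetCard K (univ : Finset (Fin m × Fin s))).card = (m * s).choose K := by
    rw [card_powersetCard, hcardY]
  have hΩ2 : ((powersetCard K (univ : Finset (Fin m × Fin s))).card : ℝ) ≤ 2 ^ (m * s) := by
    rw [hΩ]
    exact_mod_cast Nat.choose_le_two_pow (m * s) K
  have hΩ0 : (0 : ℝ) < (powersetCard K (univ : Finset (Fin m × Fin s))).card := by
    rw [hΩ]
    exact_mod_cast Nat.choose_pos hK.le
  set Ω : ℝ := ((powersetCard K (univ : Finset (Fin m × Fin s))).card : ℝ) with hΩdef
  set r : ℝ := (((m * s : ℕ) + 1) * (1 - (1 - K / (m * s : ℕ)) ^ s) ^ m) with hr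
  have hratio := ratio (m := m) (s := s) hK
  have hH0 : (0 : ℝ) ≤ ((HH m s K).card : ℝ) := Nat.cast_nonneg _
  have hr0 : 0 ≤ r := by
    have : 0 ≤ Ω * r := hH0.trans hratio
    exact (mul_nonneg_iff_of_pos_left hΩ0).1 this
  have hempty : (powersetCard K (univ : Finset (Fin m × Fin s))).filter
      (fun B => ∀ a < M, B.map (σ a).toEmbedding ∈ HH m s K) = ∅ := by
    by_contra hne
    have hpos : 1 ≤ ((powersetCard K (univ : Finset (Fin m × Fin s))).filter
      (fun B => ∀ a < M, B.map (σ a).toEmbedding ∈ HH m s K)).card :=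
      Finset.card_pos.2 (Finset.nonempty_iff_ne_empty.2 hne)
    have h1 : (powersetCard K (univ : Finset (Fin m × Fin s))).card ^ M ≤
        (powersetCard K (univ : Finset (Fin m × Fin s))).card * (HH m s K).card ^ M :=
      le_trans (Nat.le_mul_of_pos_left _ hpos) hσ
    have h2 : Ω ^ M ≤ Ω * ((HH m s K).card : ℝ) ^ M := by
      rw [hΩdef]
      exact_mod_cast h1
    have h3 : Ω ^ M ≤ Ω * (Ω * r) ^ M :=
      h2.trans (mul_le_mul_of_nonneg_left (pow_le_pow_left₀ hH0 hratio M) hΩ0.le)
    rw [mul_pow] at h3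
    have h4 : (1 : ℝ) ≤ Ω * r ^ M := by
      have hΩM : 0 < Ω ^ M := by positivity
      have h5 : Ω ^ M * 1 ≤ Ω ^ M * (Ω * r ^ M) := by
        calc Ω ^ M * 1 = Ω ^ M := mul_one _
          _ ≤ Ω * (Ω ^ M * r ^ M) := h3
          _ = _ := by ring
      exact le_of_mul_le_mul_left h5 hΩM
    have h6 : Ω * r ^ M ≤ 2 ^ (m * s) * r ^ M :=
      mul_le_mul_of_nonneg_right hΩ2 (pow_nonneg hr0 M)
    linarith
  refine ⟨fun a b => ((σ a (finProdFinEquiv.symm b)).1 : ℕ), ?_, ?_, ?_⟩
  · intro a b
    exact Fin.is_lt _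
  · intro a c hc
    have h1 : ((univ : Finset (Fin s)).card) ≤ (Finset.univ.filter (fun b : Fin (m * s) =>
        ((σ a (finProdFinEquiv.symm b)).1 : ℕ) = c)).card := by
      refine Finset.card_le_card_of_injOn
        (fun i => finProdFinEquiv ((σ a).symm (⟨c, hc⟩, i))) ?_ ?_
      · intro i _
        rw [Finset.mem_coe, Finset.mem_filter]
        refine ⟨Finset.mem_univ _, ?_⟩
        rw [Equiv.symm_apply_apply, Equiv.apply_symm_apply]
      · intro i _ i' _ h
        have h2 := finProdFinEquiv.injective h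
        have h3 := (σ a).symm.injective h2
        exact (Prod.mk.inj h3).2
    rwa [Finset.card_univ, Fintype.card_fin] at h1
  · intro B hB
    obtain ⟨B', hBB', -, hB'⟩ := Finset.exists_subsuperset_card_eq (Finset.subset_univ B) hB
      (by rw [Finset.card_univ, Fintype.card_fin]; exact hK.le)
    set B'' : Finset (Fin m × Fin s) := B'.map finProdFinEquiv.symm.toEmbedding with hB''
    have hB''K : B'' ∈ powersetCard K (univ : Finset (Fin m × Fin s)) := by
      rw [mem_powersetCard]
      exact ⟨Finset.subset_univ _, by rw [hB'', Finset.card_map, hB']⟩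
    have h1 : ¬ ∀ a < M, B''.map (σ a).toEmbedding ∈ HH m s K := by
      intro hcon
      have : B'' ∈ (powersetCard K (univ : Finset (Fin m × Fin s))).filter
        (fun B => ∀ a < M, B.map (σ a).toEmbedding ∈ HH m s K) :=
        Finset.mem_filter.2 ⟨hB''K, hcon⟩
      rw [hempty] at this
      exact absurd this (Finset.notMem_empty _)
    push Not at h1
    obtain ⟨a, ha, h2⟩ := h1
    have h3 : B''.map (σ a).toEmbedding ∈ powersetCard K (univ : Finset (Fin m × Fin s)) := by
      rw [mem_powersetCard] at hB''K ⊢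
      exact ⟨Finset.subset_univ _, by rw [Finset.card_map]; exact hB''K.2⟩
    have h4 : ¬ ∀ x, ∃ i, (x, i) ∈ B''.map (σ a).toEmbedding := by
      intro hcon
      exact h2 (Finset.mem_filter.2 ⟨h3, hcon⟩)
    push Not at h4
    obtain ⟨x, hx⟩ := h4
    refine ⟨a, ha, x, x.is_lt, ?_⟩
    intro b hb hbx
    apply hx (σ a (finProdFinEquiv.symm b)).2
    have h5 : (x, (σ a (finProdFinEquiv.symm b)).2) = σ a (finProdFinEquiv.symm b) := by
      ext
      · exact hbx.symm
      · rfl
    rw [h5]
    refine Finset.mem_map.2 ⟨finProdFinEquiv.symm b, ?_, rfl⟩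
    exact Finset.mem_map.2 ⟨b, hBB' hb, rfl⟩

end K3h38.RHO
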