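import Pool.Agent.K3h38.RHO.Family
import Pool.Agent.K3h38.RHO.Partitions

/-!
The upper bound for `ρ(k)`: for every `γ < 1` and every large `k`, every admissible `ρ` is at most
`1 - γ log k / k`.
-/

namespace K3h38.RHO
open Finset Filter Topology

lemma Admissible.mono {k K : ℕ} (h : k ≤ K) {ρ : ℝ} (hρ : Admissible k ρ) : Admissible K ρ :=
  fun F hF hT => hρ F hF (fun G hG hGk => hT G hG (hGk.trans h))

theorem upper_of {m s K M : ℕ} (hM : 1 ≤ M) (hm : 1 ≤ m) (hs : 1 ≤ s) (hK : K < m * s)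
    (h : (2 : ℝ) ^ (m * s) *
      (((m * s : ℕ) + 1) * (1 - (1 - K / (m * s : ℕ)) ^ s) ^ m) ^ M < 1)
    {ρ : ℝ} (hρ : Admissible K ρ) : ρ ≤ 1 - 1 / (2 * M + 3 + m) := by
  obtain ⟨j, hj1, hj2, hj3⟩ := partitions hK h
  obtain ⟨F, hF1, hF2, hF3, hF4⟩ := construction (M := M) (m := m) (s := s) (k := K) hM hm j
    (fun a _ b => hj1 a b) (fun a _ c hc => hj2 a c hc) hj3
  obtain ⟨G, hG, hGc, hGT⟩ := hρ F hF1 hF2
  have h1 := hF4 G hG hGT
  have hFpos : 0 < F.card := by omega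
  have hF' : (0 : ℝ) < F.card := by exact_mod_cast hFpos
  have h1' : (G.card : ℝ) + s ≤ F.card := by exact_mod_cast h1
  have h2' : (F.card : ℝ) ≤ s * (2 * M + 3 + m) := by
    have : F.card ≤ s * (2 * M + 3 + m) := by
      calc F.card ≤ s * (2 * M + 3) + m * s := hF3
        _ = s * (2 * M + 3 + m) := by ring
    exact_mod_cast this
  have hD : (0 : ℝ) < 2 * M + 3 + m := by positivity
  have h3 : (F.card : ℝ) * (1 / (2 * M + 3 + m)) ≤ s := by
    rw [mul_one_div, div_le_iff₀ hD]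
    exact h2'
  have h4 : ρ * F.card ≤ (1 - 1 / (2 * M + 3 + m)) * F.card := by
    nlinarith
  exact le_of_mul_le_mul_right h4 hF'

lemma one_sub_inv_pow {q u : ℕ} (hq : 2 ≤ q) {m : ℝ} (hm : 0 < m) {c : ℝ}
    (hu : (u : ℝ) ≤ c * (1 - 1 / q) * Real.log m) :
    m ^ (-c) ≤ (1 - 1 / (q : ℝ)) ^ (q * u) := by
  have hq' : (2 : ℝ) ≤ q := by exact_mod_cast hq
  have hb : 0 < 1 - 1 / (q : ℝ) := by
    rw [sub_pos, div_lt_one (by linarith)]
    linarith
  have h1 : -(1 / ((q : ℝ) - 1)) ≤ Real.log (1 - 1 / q) := by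
    have := Real.one_sub_inv_le_log_of_pos hb
    have e : 1 - (1 - 1 / (q : ℝ))⁻¹ = -(1 / ((q : ℝ) - 1)) := by
      have hq0 : (q : ℝ) ≠ 0 := by linarith
      have hq1 : (q : ℝ) - 1 ≠ 0 := by
        have : (0 : ℝ) < q - 1 := by linarith
        exact this.ne'
      have : 1 - 1 / (q : ℝ) = (q - 1) / q := by field_simp
      rw [this, inv_div]
      field_simp
      ring
    linarith
  have h2 : (1 - 1 / (q : ℝ)) ^ (q * u) = Real.exp (Real.log (1 - 1 / q) * (q * u)) := by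
    rw [← Real.rpow_natCast, Real.rpow_def_of_pos hb]
    push_cast
    rfl
  rw [h2, Real.rpow_def_of_pos hm, Real.exp_le_exp]
  have hq1 : (0 : ℝ) < q - 1 := by linarith
  have h3 : (q : ℝ) * u / (q - 1) ≤ c * Real.log m := by
    rw [div_le_iff₀ hq1]
    have h4 : (q : ℝ) * u ≤ q * (c * (1 - 1 / q) * Real.log m) :=
      mul_le_mul_of_nonneg_left hu (by linarith)
    have h5 : (q : ℝ) * (c * (1 - 1 / q) * Real.log m) = c * Real.log m * (q - 1) := by
      field_simp
    linarith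
  have h6 : -(1 / ((q : ℝ) - 1)) * (q * u) ≤ Real.log (1 - 1 / q) * (q * u) :=
    mul_le_mul_of_nonneg_right h1 (by positivity)
  have h7 : -(1 / ((q : ℝ) - 1)) * (q * u) = -((q : ℝ) * u / (q - 1)) := by ring
  linarith

/-- The numerical condition holds for large `m`. -/
lemma numeric {q u M m : ℕ} {η : ℝ} (hη0 : 0 < η) (hη1 : η < 1) (hq : 2 ≤ q) (hm : 1 ≤ m)
    (hu0 : 1 ≤ u)
    (hu : (u : ℝ) ≤ (1 - η) * (1 - 1 / q) * Real.log m)
    (hM : η / 2 * m ≤ M)
    (m1 : (q + 3 * η / 2) * Real.log m < η / 2 * (m : ℝ) ^ η)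
    (m2 : (m : ℝ) * (q * Real.log m) + 1 ≤ (m : ℝ) ^ 3) :
    (2 : ℝ) ^ (m * (q * u)) * (((m * (q * u) : ℕ) + 1) *
      (1 - (1 - (m * u : ℕ) / (m * (q * u) : ℕ)) ^ (q * u)) ^ m) ^ M < 1 := by
  have hm' : (1 : ℝ) ≤ m := by exact_mod_cast hm
  have hm0 : (0 : ℝ) < m := by linarith
  have hq' : (2 : ℝ) ≤ q := by exact_mod_cast hq
  have hu' : (1 : ℝ) ≤ u := by exact_mod_cast hu0
  have hlog0 : 0 ≤ Real.log m := Real.log_nonneg hm'
  have hfrac : (((m * u : ℕ) : ℝ) / (m * (q * u) : ℕ)) = 1 / q := by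
    push_cast
    field_simp
  rw [hfrac]
  have hx := one_sub_inv_pow hq hm0 hu
  set x : ℝ := (1 - 1 / (q : ℝ)) ^ (q * u) with hxdef
  have hx1 : x ≤ 1 := by
    apply pow_le_one₀
    · rw [sub_nonneg, div_le_one (by linarith)]
      linarith
    · have : (0 : ℝ) ≤ 1 / q := by positivity
      linarith
  have hqu : (q : ℝ) * u ≤ q * Real.log m := by
    have h1 : (u : ℝ) ≤ Real.log m := by
      refine hu.trans ?_
      have h2 : (1 - η) * (1 - 1 / (q : ℝ)) ≤ 1 := by
        have h3 : 1 - 1 / (q : ℝ) ≤ 1 := by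
          have : (0 : ℝ) ≤ 1 / q := by positivity
          linarith
        have h4 : 0 ≤ 1 - 1 / (q : ℝ) := by
          rw [sub_nonneg, div_le_one (by linarith)]
          linarith
        nlinarith
      nlinarith
    exact mul_le_mul_of_nonneg_left h1 (by linarith)
  -- the three exponential estimates
  have e1 : (2 : ℝ) ^ (m * (q * u)) ≤ Real.exp (m * (q * Real.log m)) := by
    have h1 : (2 : ℝ) ≤ Real.exp 1 := by
      have := Real.add_one_le_exp (1 : ℝ)
      linarith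
    calc (2 : ℝ) ^ (m * (q * u)) ≤ (Real.exp 1) ^ (m * (q * u)) :=
          pow_le_pow_left₀ (by norm_num) h1 _
      _ = Real.exp ((m * (q * u) : ℕ) * 1) := by rw [← Real.exp_nat_mul]
      _ ≤ Real.exp (m * (q * Real.log m)) := by
          rw [Real.exp_le_exp]
          push_cast
          nlinarith
  have e2 : (((m * (q * u) : ℕ) : ℝ) + 1) ≤ Real.exp (3 * Real.log m) := by
    have h1 : Real.exp (3 * Real.log m) = (m : ℝ) ^ 3 := by
      have : Real.exp (3 * Real.log m) = (Real.exp (Real.log m)) ^ 3 := by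
        rw [← Real.exp_nat_mul]
        norm_num
      rw [this, Real.exp_log hm0]
    rw [h1]
    refine le_trans ?_ m2
    push_cast
    have := mul_le_mul_of_nonneg_left hqu hm0.le
    linarith
  have e3 : (1 - x) ^ m ≤ Real.exp (-((m : ℝ) ^ η)) := by
    have h1 : (1 - x) ^ m ≤ (Real.exp (-x)) ^ m := by
      refine pow_le_pow_left₀ (by linarith) ?_ _
      have := Real.add_one_le_exp (-x)
      linarith
    refine h1.trans ?_
    rw [← Real.exp_nat_mul, Real.exp_le_exp]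
    have h2 : (m : ℝ) ^ η ≤ m * x := by
      have h3 : (m : ℝ) ^ η = m * (m : ℝ) ^ (-(1 - η)) := by
        have h4 : (m : ℝ) * (m : ℝ) ^ (-(1 - η)) = (m : ℝ) ^ (1 : ℝ) * (m : ℝ) ^ (-(1 - η)) := by
          rw [Real.rpow_one]
        rw [h4, ← Real.rpow_add hm0]
        congr 1
        ring
      rw [h3]
      exact mul_le_mul_of_nonneg_left hx hm0.le
    linarith
  have hr0 : 0 ≤ (((m * (q * u) : ℕ) : ℝ) + 1) * (1 - x) ^ m := by
    have : 0 ≤ 1 - x := by linarith
    positivity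
  have e4 : ((((m * (q * u) : ℕ) : ℝ) + 1) * (1 - x) ^ m) ^ M ≤
      Real.exp (M * (3 * Real.log m - (m : ℝ) ^ η)) := by
    have h1 : (((m * (q * u) : ℕ) : ℝ) + 1) * (1 - x) ^ m ≤
        Real.exp (3 * Real.log m - (m : ℝ) ^ η) := by
      have hsplit : 3 * Real.log (m : ℝ) - (m : ℝ) ^ η =
          3 * Real.log (m : ℝ) + -((m : ℝ) ^ η) := by ring
      rw [hsplit, Real.exp_add]
      refine mul_le_mul e2 e3 ?_ (Real.exp_pos _).le
      have : 0 ≤ 1 - x := by linarith
      positivity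
    refine (pow_le_pow_left₀ hr0 h1 M).trans ?_
    rw [← Real.exp_nat_mul]
  have e5 : (m : ℝ) * (q * Real.log m) + M * (3 * Real.log m - (m : ℝ) ^ η) < 0 := by
    have h1 : 3 * Real.log m - (m : ℝ) ^ η ≤ 0 := by
      have h2 : 3 * η / 2 * Real.log m ≤ (q + 3 * η / 2) * Real.log m := by
        nlinarith
      have h3 : 3 * η / 2 * Real.log m < η / 2 * (m : ℝ) ^ η := lt_of_le_of_lt h2 m1
      have h4 : η / 2 * (3 * Real.log m - (m : ℝ) ^ η) < 0 := by linarith
      by_contra hcon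
      push Not at hcon
      have : 0 ≤ η / 2 * (3 * Real.log m - (m : ℝ) ^ η) := by positivity
      linarith
    have h2 : M * (3 * Real.log m - (m : ℝ) ^ η) ≤
        η / 2 * m * (3 * Real.log m - (m : ℝ) ^ η) := by nlinarith
    have h3 : (m : ℝ) * ((q + 3 * η / 2) * Real.log m) < m * (η / 2 * (m : ℝ) ^ η) :=
      mul_lt_mul_of_pos_left m1 hm0
    nlinarith
  calc (2 : ℝ) ^ (m * (q * u)) * ((((m * (q * u) : ℕ) : ℝ) + 1) * (1 - x) ^ m) ^ M
      ≤ Real.exp (m * (q * Real.log m)) * Real.exp (M * (3 * Real.log m - (m : ℝ) ^ η)) :=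
        mul_le_mul e1 e4 (pow_nonneg hr0 M) (Real.exp_pos _).le
    _ = Real.exp (m * (q * Real.log m) + M * (3 * Real.log m - (m : ℝ) ^ η)) := by
        rw [Real.exp_add]
    _ < 1 := by
        rw [Real.exp_lt_one_iff]
        exact e5

lemma tendsto_div_log : Tendsto (fun x : ℝ => x / Real.log x) atTop atTop := by
  have h1 : Tendsto (fun x : ℝ => Real.log x / x) atTop (𝓝[>] 0) := by
    rw [tendsto_nhdsWithin_iff]
    constructor
    · have := Real.isLittleO_log_id_atTop.tendsto_div_nhds_zero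
      simpa using this
    · filter_upwards [eventually_gt_atTop 1] with x hx
      exact div_pos (Real.log_pos hx) (by linarith)
  have h2 := h1.inv_tendsto_nhdsGT_zero
  refine h2.congr fun x => ?_
  simp [inv_div]

theorem upper_asymptotic {γ : ℝ} (hγ : γ < 1) :
    ∀ᶠ k : ℕ in atTop, ∀ ρ, Admissible k ρ → ρ ≤ 1 - γ * (Real.log k / k) := by
  -- the small parameter
  obtain ⟨η, hη0, hη1, hη2⟩ : ∃ η : ℝ, 0 < η ∧ η ≤ 1 / 8 ∧ γ ≤ 1 - 8 * η := by
    refine ⟨min (1 - γ) 1 / 8, ?_, ?_, ?_⟩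
    · have : 0 < min (1 - γ) 1 := lt_min (by linarith) one_pos
      linarith
    · have := min_le_right (1 - γ) 1
      linarith
    · have := min_le_left (1 - γ) 1
      linarith
  obtain ⟨q, hq⟩ : ∃ q : ℕ, q = ⌈1 / η⌉₊ := ⟨_, rfl⟩
  have hqη : 1 / η ≤ q := by rw [hq]; exact Nat.le_ceil _
  have hq8 : (8 : ℝ) ≤ q := by
    refine le_trans ?_ hqη
    rw [le_div_iff₀ hη0]
    linarith
  have hq2 : 2 ≤ q := by
    have : (2 : ℝ) ≤ q := by linarith
    exact_mod_cast this
  have hqη' : 1 / (q : ℝ) ≤ η := by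
    rw [div_le_iff₀ hη0] at hqη
    rw [div_le_iff₀ (by linarith)]
    linarith
  set β : ℝ := (1 - η) ^ 3 with hβ
  have hβ0 : 0 < β := by
    have : 0 < 1 - η := by linarith
    positivity
  have hβ1 : β ≤ 1 := pow_le_one₀ (by linarith) (by linarith)
  -- conditions on `m`
  have hcast : Tendsto (fun k : ℕ => (k : ℝ)) atTop atTop := tendsto_natCast_atTop_atTop
  have hlogη : Tendsto (fun x : ℝ => x ^ η / Real.log x) atTop atTop := by
    have h1 : Tendsto (fun x : ℝ => Real.log x / x ^ η) atTop (𝓝[>] 0) := by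
      rw [tendsto_nhdsWithin_iff]
      constructor
      · exact (isLittleO_log_rpow_atTop hη0).tendsto_div_nhds_zero
      · filter_upwards [eventually_gt_atTop 1] with x hx
        exact div_pos (Real.log_pos hx) (Real.rpow_pos_of_pos (by linarith) _)
    have h2 := h1.inv_tendsto_nhdsGT_zero
    refine h2.congr fun x => ?_
    simp [inv_div]
  have m1 : ∀ᶠ m : ℕ in atTop,
      (q + 3 * η / 2) * Real.log (m : ℝ) < η / 2 * (m : ℝ) ^ η := by
    have h1 := (hlogη.comp hcast).eventually_gt_atTop ((q + 3 * η / 2) / (η / 2))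
    filter_upwards [h1, eventually_ge_atTop 2] with m h1 h2
    have h2' : (2 : ℝ) ≤ m := by exact_mod_cast h2
    have hl : 0 < Real.log m := Real.log_pos (by linarith)
    simp only [Function.comp_apply] at h1
    rw [div_lt_div_iff₀ (by linarith) hl] at h1
    linarith
  have m2 : ∀ᶠ m : ℕ in atTop, (m : ℝ) * (q * Real.log m) + 1 ≤ (m : ℝ) ^ 3 := by
    filter_upwards [eventually_ge_atTop (q + 1)] with m h1
    have h1' : (q : ℝ) + 1 ≤ m := by exact_mod_cast h1
    have hm0 : (0 : ℝ) < m := by linarith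
    have h3 : Real.log m ≤ m - 1 := Real.log_le_sub_one_of_pos hm0
    have h4 : (q : ℝ) * Real.log m ≤ q * (m - 1) := mul_le_mul_of_nonneg_left h3 (by linarith)
    have h5 : (q : ℝ) * (m - 1) ≤ (m - 1) * (m - 1) :=
      mul_le_mul_of_nonneg_right (by linarith) (by linarith)
    have h6 : (m : ℝ) * (q * Real.log m) ≤ m * ((m - 1) * (m - 1)) :=
      mul_le_mul_of_nonneg_left (h4.trans h5) hm0.le
    nlinarith
  have m3 : ∀ᶠ m : ℕ in atTop, 3 ≤ η * (m : ℝ) := by
    have h1 : Tendsto (fun m : ℕ => η * (m : ℝ)) atTop atTop := hcast.const_mul_atTop hη0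
    exact h1.eventually_ge_atTop 3
  -- the choice of `m`
  have hxk : Tendsto (fun k : ℕ => (k : ℝ) / Real.log k / β) atTop atTop :=
    (tendsto_div_log.comp hcast).atTop_div_const hβ0
  have hmk : Tendsto (fun k : ℕ => ⌈(k : ℝ) / Real.log k / β⌉₊) atTop atTop :=
    tendsto_nat_ceil_atTop.comp hxk
  have k1 : ∀ᶠ k : ℕ in atTop, Real.log (Real.log k) + 1 / (1 - η) ^ 2 ≤ η * Real.log k := by
    have hll : Tendsto (fun k : ℕ => Real.log (k : ℝ)) atTop atTop :=
      Real.tendsto_log_atTop.comp hcast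
    have h1 : ∀ᶠ x : ℝ in atTop, Real.log x + 1 / (1 - η) ^ 2 ≤ η * x := by
      have h2 : Tendsto (fun x : ℝ => Real.log x / x) atTop (𝓝 0) := by
        have := Real.isLittleO_log_id_atTop.tendsto_div_nhds_zero
        simpa using this
      have h3 := h2.eventually_lt_const (show (0 : ℝ) < η / 2 by linarith)
      have h4 : Tendsto (fun x : ℝ => η / 2 * x) atTop atTop :=
        tendsto_id.const_mul_atTop (by linarith)
      have h5 := h4.eventually_ge_atTop (1 / (1 - η) ^ 2)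
      filter_upwards [h3, h5, eventually_gt_atTop 0] with x h3 h5 h6
      rw [div_lt_iff₀ h6] at h3
      linarith
    exact hll.eventually h1
  have k2 : ∀ᶠ k : ℕ in atTop, 1 / η ≤ (k : ℝ) / Real.log k / β := hxk.eventually_ge_atTop _
  filter_upwards [hmk.eventually m1, hmk.eventually m2, hmk.eventually m3, k1, k2,
    eventually_ge_atTop 3] with k g1 g2 g3 g4 g5 g6
  intro ρ hρ
  set m : ℕ := ⌈(k : ℝ) / Real.log k / β⌉₊ with hmdef
  have hk3 : (3 : ℝ) ≤ k := by exact_mod_cast g6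
  have hk0 : (0 : ℝ) < k := by linarith
  have hlogk : 0 < Real.log k := Real.log_pos (by linarith)
  have hm0 : (0 : ℝ) < m := by
    by_contra hcon
    have : (m : ℝ) = 0 := le_antisymm (not_lt.1 hcon) (Nat.cast_nonneg m)
    rw [this] at g3
    linarith
  have hm1 : 1 ≤ m := by exact_mod_cast hm0
  have hmx : (k : ℝ) / Real.log k / β ≤ m := Nat.le_ceil _
  have hmx2 : (m : ℝ) ≤ (1 + η) * ((k : ℝ) / Real.log k / β) := by
    have h1 : (m : ℝ) < (k : ℝ) / Real.log k / β + 1 := Nat.ceil_lt_add_one (by positivity)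
    rw [div_le_iff₀ hη0] at g5
    linarith
  -- `log m` is large
  have hlogm : (1 - η) * Real.log k + 1 / (1 - η) ^ 2 ≤ Real.log m := by
    have h1 : (k : ℝ) / Real.log k ≤ m := by
      refine le_trans ?_ hmx
      rw [le_div_iff₀ hβ0]
      have : 0 ≤ (k : ℝ) / Real.log k := by positivity
      nlinarith
    have h2 : Real.log ((k : ℝ) / Real.log k) ≤ Real.log m :=
      Real.log_le_log (by positivity) h1
    rw [Real.log_div hk0.ne' hlogk.ne'] at h2
    linarith
  have hlogm0 : 0 < Real.log m := by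
    have h1 : 0 < (1 - η) * Real.log k := mul_pos (by linarith) hlogk
    have h2 : 0 < 1 / (1 - η) ^ 2 := by
      have : 0 < 1 - η := by linarith
      positivity
    linarith
  -- the choice of `u`
  obtain ⟨u, hu⟩ : ∃ u : ℕ, u = ⌊(1 - η) * (1 - 1 / q) * Real.log m⌋₊ := ⟨_, rfl⟩
  have hq1 : 1 - η ≤ 1 - 1 / (q : ℝ) := by linarith
  have hunn : 0 ≤ (1 - η) * (1 - 1 / (q : ℝ)) * Real.log m := by
    have h1 : 0 ≤ 1 - η := by linarith
    have h2 : 0 ≤ 1 - 1 / (q : ℝ) := by linarith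
    positivity
  have hu1 : (u : ℝ) ≤ (1 - η) * (1 - 1 / q) * Real.log m := by
    rw [hu]
    exact Nat.floor_le hunn
  have hu2 : β * Real.log k ≤ u := by
    have h1 : (1 - η) * (1 - 1 / q) * Real.log m < u + 1 := by
      rw [hu]
      exact Nat.lt_floor_add_one _
    have h2 : (1 - η) ^ 2 * Real.log m ≤ (1 - η) * (1 - 1 / q) * Real.log m := by
      have h3 : (1 - η) ^ 2 ≤ (1 - η) * (1 - 1 / (q : ℝ)) := by nlinarith
      exact mul_le_mul_of_nonneg_right h3 hlogm0.le
    have h4 : (1 - η) ^ 2 * ((1 - η) * Real.log k + 1 / (1 - η) ^ 2) ≤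
        (1 - η) ^ 2 * Real.log m := mul_le_mul_of_nonneg_left hlogm (sq_nonneg _)
    have h5 : (1 - η) ^ 2 * ((1 - η) * Real.log k + 1 / (1 - η) ^ 2) =
        β * Real.log k + 1 := by
      have : (1 - η) ≠ 0 := by
        have : 0 < 1 - η := by linarith
        exact this.ne'
      rw [hβ]
      field_simp
    linarith
  have hu0 : 1 ≤ u := by
    have : (0 : ℝ) < u := lt_of_lt_of_le (by positivity) hu2
    exact_mod_cast this
  -- `K = m u ≥ k`
  have hKk : k ≤ m * u := by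
    have h1 : (k : ℝ) ≤ m * u := by
      calc (k : ℝ) = ((k : ℝ) / Real.log k / β) * (β * Real.log k) := by
            field_simp
        _ ≤ m * u := mul_le_mul hmx hu2 (by positivity) hm0.le
    exact_mod_cast h1
  -- the choice of `M`
  obtain ⟨M, hM⟩ : ∃ M : ℕ, M = ⌊η * (m : ℝ)⌋₊ := ⟨_, rfl⟩
  have hM1 : (M : ℝ) ≤ η * m := by
    rw [hM]
    exact Nat.floor_le (by positivity)
  have hM2 : η / 2 * m ≤ M := by
    have : η * (m : ℝ) < M + 1 := by
      rw [hM]
      exact Nat.lt_floor_add_one _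
    linarith
  have hM0 : 1 ≤ M := by
    have : (0 : ℝ) < M := lt_of_lt_of_le (by positivity) hM2
    exact_mod_cast this
  have hKlt : m * u < m * (q * u) := by
    have : u < q * u := by nlinarith
    exact Nat.mul_lt_mul_of_pos_left this hm1
  have hfin := upper_of (m := m) (s := q * u) (K := m * u) (M := M) hM0 hm1
    (Nat.mul_pos (by omega) hu0) hKlt
    (numeric hη0 (by linarith) hq2 hm1 hu0 hu1 hM2 g1 g2) (hρ.mono hKk)
  -- final estimate
  refine hfin.trans ?_
  have h1 : (2 * (M : ℝ) + 3 + m) ≤ (1 + 3 * η) * m := by linarith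
  have h2 : (1 + 3 * η) * m ≤ (1 + 3 * η) * ((1 + η) * ((k : ℝ) / Real.log k / β)) :=
    mul_le_mul_of_nonneg_left hmx2 (by linarith)
  have h3 : (0 : ℝ) < 2 * (M : ℝ) + 3 + m := by positivity
  have h4 : 1 / ((1 + 3 * η) * ((1 + η) * ((k : ℝ) / Real.log k / β))) ≤
      1 / (2 * (M : ℝ) + 3 + m) := one_div_le_one_div_of_le h3 (h1.trans h2)
  have h5 : 1 / ((1 + 3 * η) * ((1 + η) * ((k : ℝ) / Real.log k / β))) =
      β / ((1 + 3 * η) * (1 + η)) * (Real.log k / k) := by
    field_simp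
  have h6 : γ ≤ β / ((1 + 3 * η) * (1 + η)) := by
    rw [le_div_iff₀ (by positivity)]
    have h7 : γ * ((1 + 3 * η) * (1 + η)) ≤ (1 - 8 * η) * ((1 + 3 * η) * (1 + η)) :=
      mul_le_mul_of_nonneg_right hη2 (by positivity)
    refine h7.trans ?_
    rw [hβ]
    have : (1 - η) ^ 3 - (1 - 8 * η) * ((1 + 3 * η) * (1 + η)) =
      η * (1 + 32 * η + 23 * η ^ 2) := by ring
    have h8 : 0 ≤ η * (1 + 32 * η + 23 * η ^ 2) := by positivity
    linarith
  have h7 : γ * (Real.log k / k) ≤ β / ((1 + 3 * η) * (1 + η)) * (Real.log k / k) :=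
    mul_le_mul_of_nonneg_right h6 (by positivity)
  linarith

end K3h38.RHO
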